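import Pool.Agent.H.MP_d24e49_pr.Quant

/-!
Asymptotics.
-/

namespace Pool.Agent.H.MP_d24e49_pr

open Finset SimpleGraph Filter Topology

/-- `R₂` of the cycle with `k + 3` vertices -/
noncomputable def RR (k : ℕ) : ℕ := R2 (cycleGraph (k + 3))

/-- the number of balls -/
noncomputable def balls (k : ℕ) : ℕ := (k + 3) * (RR k * Nat.sqrt (RR k))

theorem log_tendsto : Tendsto (fun k : ℕ => Real.log ((k + 3 : ℕ) : ℝ)) atTop atTop :=
  Real.tendsto_log_atTop.comp
    ((tendsto_natCast_atTop_atTop (R := ℝ)).comp (tendsto_add_atTop_nat 3))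

theorem RR_tendsto : Tendsto (fun k : ℕ => RR k) atTop atTop := by
  rw [tendsto_atTop]
  intro b
  filter_upwards [log_tendsto.eventually_gt_atTop ((b : ℝ) * (2 * b + 1))] with k hk
  by_contra hcon
  push Not at hcon
  have h1 := R2_spec k
  have h2 : ((RR k : ℕ) : ℝ) ≤ b := by exact_mod_cast hcon.le
  have h3 : (0 : ℝ) ≤ (RR k : ℕ) := Nat.cast_nonneg _
  have h4 : ((RR k : ℕ) : ℝ) * (2 * (RR k : ℕ) + 1) ≤ b * (2 * b + 1) := by nlinarith
  have h5 : Real.log ((k + 3 : ℕ) : ℝ) ≤ ((RR k : ℕ) : ℝ) * (2 * (RR k : ℕ) + 1) := h1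
  linarith

theorem RR_tendsto_real : Tendsto (fun k : ℕ => (RR k : ℝ)) atTop atTop :=
  tendsto_natCast_atTop_atTop.comp RR_tendsto

theorem natSqrt_tendsto : Tendsto Nat.sqrt atTop atTop := by
  rw [tendsto_atTop]
  intro b
  filter_upwards [eventually_ge_atTop (b * b)] with n hn
  exact Nat.le_sqrt.2 hn

theorem r_tendsto : Tendsto (fun k : ℕ => (Nat.sqrt (RR k) : ℝ)) atTop atTop :=
  tendsto_natCast_atTop_atTop.comp (natSqrt_tendsto.comp RR_tendsto)

theorem K_tendsto : Tendsto (fun k : ℕ => Real.sqrt (Nat.sqrt (RR k) : ℝ)) atTop atTop :=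
  Real.tendsto_sqrt_atTop.comp r_tendsto

theorem balls_div (k : ℕ) : (balls k : ℝ) / (k + 3 : ℕ) = (RR k : ℝ) * (Nat.sqrt (RR k) : ℝ) := by
  unfold balls
  have : ((k + 3 : ℕ) : ℝ) ≠ 0 := by positivity
  push_cast
  push_cast at this
  field_simp

theorem balls_tendsto :
    Tendsto (fun k : ℕ => (balls k : ℝ) / ((k + 3 : ℕ) * (R2 (cycleGraph (k + 3)) : ℝ)))
      atTop atTop := by
  apply r_tendsto.congr'
  filter_upwards [RR_tendsto.eventually_gt_atTop 0] with k hk
  rw [← div_div, balls_div]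
  have h0 : (RR k : ℝ) ≠ 0 := by
    have : (0 : ℝ) < RR k := by exact_mod_cast hk
    exact this.ne'
  change _ = (RR k : ℝ) * (Nat.sqrt (RR k) : ℝ) / (RR k : ℝ)
  field_simp

/-- polylogarithms are negligible -/
theorem log_sq_div (c : ℝ) :
    Tendsto (fun k : ℕ => c * (Real.log ((k + 3 : ℕ) : ℝ) ^ 2 / Real.sqrt ((k + 3 : ℕ) : ℝ)))
      atTop (𝓝 0) := by
  have h1 : Tendsto (fun x : ℝ => Real.log x ^ 2 / x ^ (1 / 2 : ℝ)) atTop (𝓝 0) := by
    have h := (isLittleO_log_rpow_rpow_atTop (s := 1 / 2) (2 : ℝ) (by norm_num)).tendsto_div_nhds_zero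
    refine h.congr' ?_
    filter_upwards [eventually_gt_atTop 1] with x hx
    rw [← Real.rpow_natCast]
    norm_num
  have h2 := h1.comp ((tendsto_natCast_atTop_atTop (R := ℝ)).comp (tendsto_add_atTop_nat 3))
  have h3 := h2.const_mul c
  rw [mul_zero] at h3
  refine h3.congr (fun k => ?_)
  simp only [Function.comp]
  rw [Real.sqrt_eq_rpow]

theorem S1_anti (k : ℕ) {η : ℝ} (hη : 0 ≤ η) : S1 k (2 * η) ≤ S1 k η := by
  unfold S1
  apply sum_le_sum
  intro x _
  apply Real.exp_le_exp.2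
  have : 0 ≤ η * (cn x : ℝ) := by positivity
  nlinarith

/-- The choice of parameters. -/
theorem param_bound (k : ℕ) {C R r K N L : ℝ} (hC : 1 ≤ C) (hR : R = (RR k : ℝ))
    (hr : r = (Nat.sqrt (RR k) : ℝ)) (hK : K = Real.sqrt r) (hN : N = ((k + 3 : ℕ) : ℝ))
    (hL : L = Real.log N) (hR2 : 2 ≤ R) (hr1 : 96 * C ≤ r) (hK1 : 32 * (96 * C) ^ 3 ≤ K)
    (hN1 : 49152 * C * L ≤ N) :
    ((loads (cycleGraph (k + 3)) (balls k)).toOuterMeasure
      {X | (maxLoad X : ℝ) ≤ (balls k : ℝ) / (k + 3 : ℕ) + C * R}).toReal ≤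
      2 / r + 96 * Real.exp 3 / (K - 1) + Real.sqrt (768 * C * (L ^ 2 / Real.sqrt N)) := by
  have hC0 : 0 < C := by linarith
  have hR0 : 0 < R := by linarith
  have hr0 : 0 < r := by linarith
  have hN0 : 0 < N := by rw [hN]; positivity
  have hrR : r ^ 2 ≤ R := by
    rw [hr, hR]
    exact_mod_cast (Nat.sqrt_le' (RR k))
  have hK2 : K ^ 2 = r := by rw [hK]; exact Real.sq_sqrt hr0.le
  have hK96 : 96 ≤ K := by
    have h1 : (1 : ℝ) ≤ C ^ 3 := one_le_pow₀ hC
    rw [mul_pow] at hK1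
    linarith
  have hK0 : 0 < K := by linarith
  have hKr : K ≤ r := by
    have h1 : K * 1 ≤ K * K := mul_le_mul_of_nonneg_left (by linarith) hK0.le
    linarith [hK2, sq K]
  have hrR' : r ≤ R := by
    have h1 : r * 1 ≤ r * r := mul_le_mul_of_nonneg_left (by linarith) hr0.le
    linarith [hrR, sq r]
  have hKR : K ≤ R := hKr.trans hrR'
  have hLN := R2_sq_le k
  have hRL : R ^ 2 ≤ 4 * L := by
    have h1 : (R - 1) ^ 2 ≤ L := by
      rw [hL, hN, hR]; exact hLN
    have h2 : R ^ 2 ≤ (2 * (R - 1)) ^ 2 := pow_le_pow_left₀ hR0.le (by linarith) 2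
    linarith [h2, mul_pow (2 : ℝ) (R - 1) 2]
  have hL0 : 0 < L := by
    have : 0 < R ^ 2 := by positivity
    linarith
  set η : ℝ := 1 / (96 * C * R * K) with hη
  set θ : ℝ := 1 / (96 * C * R) with hθ
  set δ : ℝ := 96 * C / r with hδ
  have hη0 : 0 < η := by positivity
  have hθ0 : 0 < θ := by positivity
  have hδ0 : 0 < δ := by positivity
  have hδ1 : δ ≤ 1 := by rw [hδ, div_le_one hr0]; exact hr1
  have hCR1 : 1 ≤ C * R := by
    have := mul_le_mul hC hR2 (by norm_num) hC0.le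
    linarith
  have hCR : 1 ≤ 96 * C * R := by
    have : 96 * C * R = 96 * (C * R) := by ring
    linarith
  have hθ1 : θ ≤ 1 := by rw [hθ, div_le_one (by positivity)]; exact hCR
  have hηθ : η * K = θ := by rw [hη, hθ]; field_simp
  have hηθ' : η < θ := by
    have h1 : η * 96 ≤ η * K := mul_le_mul_of_nonneg_left hK96 hη0.le
    linarith
  have hη1 : η ≤ 1 := by linarith
  have hT : (balls k : ℝ) / (k + 3 : ℕ) = R * r := by rw [balls_div, hR, hr]
  have hinv : 96 * C * R * K * η = 1 := by rw [hη]; field_simp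
  have hCRK : 96 * C * R * K ≤ 96 * C * (4 * L) := by
    have h1 : R * K ≤ 4 * L := by
      have h3 : R * K ≤ R * R := mul_le_mul_of_nonneg_left hKR hR0.le
      linarith [sq R]
    have h2 : 0 ≤ 96 * C := by positivity
    calc 96 * C * R * K = 96 * C * (R * K) := by ring
      _ ≤ 96 * C * (4 * L) := mul_le_mul_of_nonneg_left h1 h2
  have hηN : 1 ≤ η * (k + 3 : ℕ) := by
    rw [← hN]
    have h1 : 96 * C * R * K ≤ N := by
      have h2 : 0 < C * L := by positivity
      linarith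
    calc 1 = η * (96 * C * R * K) := by rw [← hinv]; ring
      _ ≤ η * N := mul_le_mul_of_nonneg_left h1 hη0.le
  have hs1 : S1 k η ≤ 384 * C * R * K := by
    have h := S1_le (k := k) hη0 hη1
    have : 4 / η = 384 * C * R * K := by rw [hη]; field_simp; ring
    rw [this] at h; exact h
  have hs2 : 24 * C * R * K ≤ S1 k (2 * η) := by
    have h := S1_two_ge (k := k) hη0 hηN
    have : 1 / (4 * η) = 24 * C * R * K := by rw [hη]; field_simp; ring
    rw [this] at h; exact h
  have hs3 := S1_anti k hη0.le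
  have hs0 := S1_pos (k := k) η
  have hs1N : S1 k η ≤ N / 32 := by
    have h2 : 0 < C * L := by positivity
    linarith
  set s := S1 k η with hs
  set s2 := S1 k (2 * η) with hs2'
  have hg0 : 0 < C * R := by positivity
  have hTδ : R * r * δ = 96 * C * R := by rw [hδ]; field_simp
  have hgap : 3 * (C * R) * s ≤ (balls k : ℝ) / (k + 3 : ℕ) * (δ * s2) -
      (balls k : ℝ) / (k + 3 : ℕ) * (δ * s ^ 2 / (k + 3 : ℕ)) := by
    rw [hT, ← hN]
    have e1 : R * r * (δ * s2) - R * r * (δ * s ^ 2 / N) = (R * r * δ) * (s2 - s * (s / N)) := by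
      field_simp
    rw [e1, hTδ]
    have h1 : s / N ≤ 1 / 32 := by
      rw [div_le_iff₀ hN0]; linarith
    have h2 : s / 16 ≤ s2 := by linarith
    have h3 : s * (s / N) ≤ s * (1 / 32) := mul_le_mul_of_nonneg_left h1 hs0.le
    have h4 : s / 32 ≤ s2 - s * (s / N) := by linarith
    calc 3 * (C * R) * s = 96 * C * R * (s / 32) := by ring
      _ ≤ _ := mul_le_mul_of_nonneg_left h4 (by positivity)
  have hmain := main_bound hδ0.le hδ1 hη0 hηθ' hθ1 hg0 (balls k) hgap
  rw [hT, ← hN, ← hs] at hmain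
  rw [hT]
  refine hmain.trans ?_
  -- the three terms
  have t1 : 2 * (R * r) / ((C * R) ^ 2 * s) ≤ 2 / r := by
    rw [div_le_div_iff₀ (by positivity) hr0]
    have h1 : 1 ≤ s := by
      have h5 : 1 * 1 ≤ C * R * K := mul_le_mul hCR1 (by linarith) zero_le_one (by positivity)
      linarith
    have h2 : 1 ≤ C ^ 2 := one_le_pow₀ hC
    have h3 : R * r ^ 2 ≤ R ^ 2 := by
      have := mul_le_mul_of_nonneg_left hrR hR0.le
      linarith [sq R]
    have h4 : R ^ 2 ≤ (C * R) ^ 2 * s := by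
      calc R ^ 2 = 1 * R ^ 2 * 1 := by ring
        _ ≤ C ^ 2 * R ^ 2 * s := by gcongr
        _ = _ := by ring
    linarith [h3, h4, sq r, mul_assoc R r r]
  have t2 : η / (C * R * (θ * (θ - η))) * Real.exp ((2 * θ ^ 2 + δ * θ) * (R * r)) ≤
      96 * Real.exp 3 / (K - 1) := by
    have h1 : η / (C * R * (θ * (θ - η))) = 96 / (K - 1) := by
      have hK1' : K - 1 ≠ 0 := by linarith
      rw [← hηθ]
      have e1 : η * K - η = η * (K - 1) := by ring
      rw [e1]
      rw [div_eq_div_iff (by positivity) hK1']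
      have e2 : 96 * (C * R * (η * K * (η * (K - 1)))) = (96 * C * R * K * η) * (η * (K - 1)) := by
        ring
      rw [e2, hinv]; ring
    rw [h1]
    have h2 : (2 * θ ^ 2 + δ * θ) * (R * r) ≤ 3 := by
      have e1 : δ * θ * (R * r) = 1 := by
        rw [hδ, hθ]; field_simp
      have e2 : θ ^ 2 * (R * r) ≤ 1 := by
        have e3 : θ * R ≤ 1 := by
          rw [hθ, div_mul_eq_mul_div, one_mul, div_le_one (by positivity)]
          have : 1 * R ≤ 96 * C * R := mul_le_mul_of_nonneg_right (by linarith) hR0.le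
          linarith
        have e4 : θ * r ≤ 1 := le_trans (mul_le_mul_of_nonneg_left hrR' hθ0.le) e3
        calc θ ^ 2 * (R * r) = (θ * R) * (θ * r) := by ring
          _ ≤ 1 * 1 := mul_le_mul e3 e4 (by positivity) zero_le_one
          _ = 1 := by ring
      calc (2 * θ ^ 2 + δ * θ) * (R * r) = 2 * (θ ^ 2 * (R * r)) + δ * θ * (R * r) := by ring
        _ ≤ 3 := by linarith
    have h3 : Real.exp ((2 * θ ^ 2 + δ * θ) * (R * r)) ≤ Real.exp 3 := Real.exp_le_exp.2 h2
    calc 96 / (K - 1) * Real.exp ((2 * θ ^ 2 + δ * θ) * (R * r)) ≤ 96 / (K - 1) * Real.exp 3 :=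
          mul_le_mul_of_nonneg_left h3 (div_nonneg (by norm_num) (by linarith))
      _ = 96 * Real.exp 3 / (K - 1) := by ring
  have t3 : Real.sqrt (R * r * δ ^ 2 * s ^ 2 * Real.exp (R * r * δ ^ 2 * s) / N) ≤
      Real.sqrt (768 * C * (L ^ 2 / Real.sqrt N)) := by
    apply Real.sqrt_le_sqrt
    have hY : R * r * δ ^ 2 * s ≤ L / 2 := by
      have e1 : R * r * δ ^ 2 = (96 * C) ^ 2 * R / r := by rw [hδ]; field_simp
      have e2 : (96 * C) ^ 2 * R / r * s ≤ (96 * C) ^ 2 * R / r * (384 * C * R * K) :=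
        mul_le_mul_of_nonneg_left hs1 (by positivity)
      have e3 : (96 * C) ^ 2 * R / r * (384 * C * R * K) = 4 * (96 * C) ^ 3 * R ^ 2 / K := by
        rw [← hK2]; field_simp; ring
      have e4 : 4 * (96 * C) ^ 3 * R ^ 2 / K ≤ R ^ 2 / 8 := by
        rw [div_le_div_iff₀ hK0 (by norm_num)]
        have h5 : 0 ≤ R ^ 2 := by positivity
        have h6 := mul_le_mul_of_nonneg_left hK1 h5
        linarith
      rw [e1]
      linarith
    have hY0 : 0 ≤ R * r * δ ^ 2 * s := by positivity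
    have hexp : Real.exp (R * r * δ ^ 2 * s) ≤ Real.sqrt N := by
      have e1 : Real.exp (R * r * δ ^ 2 * s) ≤ Real.exp (L / 2) := Real.exp_le_exp.2 hY
      have e2 : Real.exp (L / 2) = Real.sqrt N := by
        rw [Real.exp_half, hL, Real.exp_log hN0]
      linarith
    have hsN : 0 < Real.sqrt N := Real.sqrt_pos.2 hN0
    have hsN2 : Real.sqrt N * Real.sqrt N = N := Real.mul_self_sqrt hN0.le
    have hsL : s ≤ 1536 * C * L := by linarith
    have e5 : R * r * δ ^ 2 * s ^ 2 * Real.exp (R * r * δ ^ 2 * s) ≤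
        (L / 2) * (1536 * C * L) * Real.sqrt N := by
      have e6 : R * r * δ ^ 2 * s ^ 2 = (R * r * δ ^ 2 * s) * s := by ring
      rw [e6]
      apply mul_le_mul _ hexp (Real.exp_pos _).le (by positivity)
      exact mul_le_mul hY hsL hs0.le (by positivity)
    calc R * r * δ ^ 2 * s ^ 2 * Real.exp (R * r * δ ^ 2 * s) / N ≤
          (L / 2) * (1536 * C * L) * Real.sqrt N / N := by gcongr
      _ = 768 * C * (L ^ 2 / Real.sqrt N) := by
        have e7 : ∀ q : ℝ, q ≠ 0 → q * q = N →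
            (L / 2) * (1536 * C * L) * q / N = 768 * C * (L ^ 2 / q) := by
          intro q hq hqN
          rw [← hqN]
          field_simp
          ring
        exact e7 _ hsN.ne' hsN2
  linarith

/-- The error terms tend to zero. -/
theorem error_tendsto (C : ℝ) :
    Tendsto (fun k : ℕ => 2 / (Nat.sqrt (RR k) : ℝ) +
      96 * Real.exp 3 / (Real.sqrt (Nat.sqrt (RR k) : ℝ) - 1) +
      Real.sqrt (768 * C * (Real.log ((k + 3 : ℕ) : ℝ) ^ 2 / Real.sqrt ((k + 3 : ℕ) : ℝ))))
      atTop (𝓝 0) := by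
  have h1 : Tendsto (fun k : ℕ => 2 / (Nat.sqrt (RR k) : ℝ)) atTop (𝓝 0) :=
    r_tendsto.const_div_atTop 2
  have h2 : Tendsto (fun k : ℕ => 96 * Real.exp 3 / (Real.sqrt (Nat.sqrt (RR k) : ℝ) - 1))
      atTop (𝓝 0) := by
    apply Tendsto.const_div_atTop
    have := tendsto_atTop_add_const_right atTop (-1 : ℝ) K_tendsto
    exact this
  have h3 : Tendsto (fun k : ℕ => Real.sqrt (768 * C * (Real.log ((k + 3 : ℕ) : ℝ) ^ 2 /
      Real.sqrt ((k + 3 : ℕ) : ℝ)))) atTop (𝓝 0) := by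
    have := (Real.continuous_sqrt.tendsto 0).comp (log_sq_div (768 * C))
    rw [Real.sqrt_zero] at this
    exact this
  have h4 := (h1.add h2).add h3
  simpa using h4

theorem log_lt_eventually (c : ℝ) :
    ∀ᶠ k : ℕ in atTop, c * Real.log ((k + 3 : ℕ) : ℝ) ≤ ((k + 3 : ℕ) : ℝ) := by
  have h1 : Tendsto (fun x : ℝ => Real.log x / x) atTop (𝓝 0) := by
    have h := (Real.isLittleO_log_id_atTop).tendsto_div_nhds_zero
    exact h
  have h2 := (h1.comp ((tendsto_natCast_atTop_atTop (R := ℝ)).comp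
    (tendsto_add_atTop_nat 3))).const_mul c
  rw [mul_zero] at h2
  filter_upwards [h2.eventually_lt_const (zero_lt_one)] with k hk
  simp only [Function.comp] at hk
  have h3 : (0 : ℝ) < ((k + 3 : ℕ) : ℝ) := by positivity
  rw [mul_div_assoc', div_lt_one h3] at hk
  exact hk.le

/-- On the cycles, the probability that the maximum load is at most `m / n + C R₂` tends to `0`
for every constant `C`. -/
theorem prob_tendsto (C : ℝ) :
    Tendsto (fun k : ℕ => (loads (cycleGraph (k + 3)) (balls k)).toOuterMeasure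
      {X | (maxLoad X : ℝ) ≤ (balls k : ℝ) / (k + 3 : ℕ) +
        C * (R2 (cycleGraph (k + 3)) : ℝ)}) atTop (𝓝 0) := by
  set C' : ℝ := max C 1 with hC'
  have hC1 : 1 ≤ C' := le_max_right _ _
  have hCC : C ≤ C' := le_max_left _ _
  have hfin : ∀ (k : ℕ) (E : Set (Fin (k + 3) → ℕ)),
      (loads (cycleGraph (k + 3)) (balls k)).toOuterMeasure E ≠ ⊤ := by
    intro k E
    refine ne_top_of_le_ne_top ENNReal.one_ne_top ?_
    rw [← (loads (cycleGraph (k + 3)) (balls k)).tsum_coe, PMF.toOuterMeasure_apply]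
    apply ENNReal.tsum_le_tsum
    intro X
    exact Set.indicator_le_self' (fun _ _ => zero_le) X
  refine (ENNReal.tendsto_toReal_iff (fun k => hfin k _) ENNReal.zero_ne_top).1 ?_
  rw [ENNReal.toReal_zero]
  have herr := error_tendsto C'
  refine tendsto_of_tendsto_of_tendsto_of_le_of_le' tendsto_const_nhds herr
    (Eventually.of_forall fun k => ENNReal.toReal_nonneg) ?_
  filter_upwards [RR_tendsto_real.eventually_ge_atTop 2,
    r_tendsto.eventually_ge_atTop (96 * C'),
    K_tendsto.eventually_ge_atTop (32 * (96 * C') ^ 3),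
    log_lt_eventually (49152 * C')] with k h1 h2 h3 h4
  have h5 := param_bound k hC1 rfl rfl rfl rfl rfl h1 h2 h3 h4
  refine le_trans ?_ h5
  apply ENNReal.toReal_mono (hfin k _)
  apply MeasureTheory.measure_mono
  intro X hX
  have hX' : (maxLoad X : ℝ) ≤ (balls k : ℝ) / (k + 3 : ℕ) +
        C * (R2 (cycleGraph (k + 3)) : ℝ) := hX
  have h6 : C * (R2 (cycleGraph (k + 3)) : ℝ) ≤ C' * (RR k : ℝ) :=
    mul_le_mul_of_nonneg_right hCC (Nat.cast_nonneg _)
  have h7 : (maxLoad X : ℝ) ≤ (balls k : ℝ) / (k + 3 : ℕ) + C' * (RR k : ℝ) := by linarith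
  exact h7

end Pool.Agent.H.MP_d24e49_pr
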