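import Pool.Agent.H.MP_d24e49_pr.Op

/-!
The bound for the total descent and the comparison with independent balls.
-/

namespace Pool.Agent.H.MP_d24e49_pr

open Finset

variable {V : Type*} [Fintype V] [DecidableEq V]

/-- expected weighted descent of one ball -/
noncomputable def descent (S : (V → ℕ) → V → V → ℝ) (π w : V → ℝ) (X : V → ℕ) : ℝ :=
  ∑ u, π u * ∑ v, S X u v * (w u * ((X u : ℝ) - X v))

/-- expected total weighted descent of `m` balls -/
noncomputable def totDescent (S : (V → ℕ) → V → V → ℝ) (π w : V → ℝ) : ℕ → (V → ℕ) → ℝ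
  | 0, _ => 0
  | m + 1, X => descent S π w X + stepOp S π (totDescent S π w m) X

variable {G : SimpleGraph V} {S : (V → ℕ) → V → V → ℝ} {π w : V → ℝ} {η θ : ℝ}

theorem le_of_walk {X : V → ℕ} {u v : V} (h : ∃ p : G.Walk u v, p.length + X v ≤ X u) :
    (0 : ℝ) ≤ (X u : ℝ) - X v := by
  obtain ⟨p, hp⟩ := h
  have : X v ≤ X u := by omega
  have : (X v : ℝ) ≤ X u := by exact_mod_cast this
  linarith

theorem descent_nonneg (hS : Downhill G S) (hπ : ∀ u, 0 ≤ π u) (hw0 : ∀ v, 0 < w v)
    (X : V → ℕ) : 0 ≤ descent S π w X := by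
  unfold descent
  apply sum_nonneg
  intro u _
  apply mul_nonneg (hπ u)
  apply sum_nonneg
  intro v _
  by_cases h : S X u v = 0
  · rw [h]; simp
  · exact mul_nonneg (hS.nonneg X u v) (mul_nonneg (hw0 u).le (le_of_walk (hS.walk X u v h)))

theorem pot_avg (hS : Downhill G S) (hπ : ∀ u, 0 ≤ π u) (hπ1 : ∑ u, π u = 1)
    (hw0 : ∀ v, 0 < w v) (hw : ∀ a b, G.Adj a b → Real.exp (-η) * w a ≤ w b)
    (hη : 0 ≤ η) (hηθ : η ≤ θ) {πp πm lam τ : ℝ} (hπp : ∀ u, π u ≤ πp) (hπm : ∀ u, πm ≤ π u)
    (hl1 : Real.exp (-(θ * τ)) * (1 + (Real.exp θ - 1) * πp) ≤ Real.exp lam)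
    (hl2 : Real.exp (θ * τ) * (1 - (1 - Real.exp (-θ)) * πm) ≤ Real.exp lam)
    (s : ℝ) (X : V → ℕ) :
    stepOp S π (fun Y => potP w θ (s + τ) Y + potM w θ (s + τ) Y) X ≤
      Real.exp lam * (potP w θ s X + potM w θ s X) - 2 * (θ * (θ - η)) * descent S π w X := by
  have hθ0 : 0 ≤ θ := hη.trans hηθ
  set E : V → ℝ := fun u =>
      Real.exp (-(θ * τ)) * (potP w θ s X + (Real.exp θ - 1) * (w u * Real.exp (θ * (X u - s)))) +
      Real.exp (θ * τ) * (potM w θ s X - (1 - Real.exp (-θ)) * (w u * Real.exp (-(θ * (X u - s)))))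
    with hE
  have e1 : 0 ≤ Real.exp θ - 1 := by linarith [Real.one_le_exp hθ0]
  have e2 : 0 ≤ 1 - Real.exp (-θ) := by
    have : Real.exp (-θ) ≤ 1 := Real.exp_le_one_iff.2 (by linarith)
    linarith
  have h1 : stepOp S π (fun Y => potP w θ (s + τ) Y + potM w θ (s + τ) Y) X ≤
      ∑ u, π u * ∑ v, S X u v * (E u - 2 * (θ * (θ - η)) * (w u * ((X u : ℝ) - X v))) := by
    unfold stepOp
    apply sum_le_sum
    intro u _
    apply mul_le_mul_of_nonneg_left _ (hπ u)
    apply sum_le_sum
    intro v _
    by_cases h : S X u v = 0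
    · rw [h]; simp
    · apply mul_le_mul_of_nonneg_left _ (hS.nonneg X u v)
      exact pot_step hw0 hw hη hηθ s τ X (hS.walk X u v h)
  have h2 : ∑ u, π u * ∑ v, S X u v * (E u - 2 * (θ * (θ - η)) * (w u * ((X u : ℝ) - X v))) =
      ∑ u, π u * E u - 2 * (θ * (θ - η)) * descent S π w X := by
    unfold descent
    rw [mul_sum, ← sum_sub_distrib]
    apply sum_congr rfl
    intro u _
    have : ∑ v, S X u v * (E u - 2 * (θ * (θ - η)) * (w u * ((X u : ℝ) - X v))) =
        (∑ v, S X u v) * E u - 2 * (θ * (θ - η)) * ∑ v, S X u v * (w u * ((X u : ℝ) - X v)) := by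
      rw [sum_mul, mul_sum, ← sum_sub_distrib]
      apply sum_congr rfl
      intro v _
      ring
    rw [this, hS.sum_one]
    ring
  have h3 : ∑ u, π u * E u ≤ Real.exp lam * (potP w θ s X + potM w θ s X) := by
    have h4 : ∑ u, π u * E u =
        Real.exp (-(θ * τ)) * (potP w θ s X + (Real.exp θ - 1) *
          ∑ u, π u * (w u * Real.exp (θ * (X u - s)))) +
        Real.exp (θ * τ) * (potM w θ s X - (1 - Real.exp (-θ)) *
          ∑ u, π u * (w u * Real.exp (-(θ * (X u - s))))) := by
      have h5 : ∀ u, π u * E u = Real.exp (-(θ * τ)) * (potP w θ s X) * π u +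
          Real.exp (-(θ * τ)) * (Real.exp θ - 1) * (π u * (w u * Real.exp (θ * (X u - s)))) +
          Real.exp (θ * τ) * (potM w θ s X) * π u -
          Real.exp (θ * τ) * (1 - Real.exp (-θ)) *
            (π u * (w u * Real.exp (-(θ * (X u - s))))) := by
        intro u; rw [hE]; ring
      simp_rw [h5]
      rw [sum_sub_distrib, sum_add_distrib, sum_add_distrib, ← mul_sum, ← mul_sum, ← mul_sum,
        ← mul_sum, hπ1]
      ring
    rw [h4]
    have h6 : ∑ u, π u * (w u * Real.exp (θ * (X u - s))) ≤ πp * potP w θ s X := by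
      unfold potP
      rw [mul_sum]
      apply sum_le_sum
      intro u _
      exact mul_le_mul_of_nonneg_right (hπp u) (mul_nonneg (hw0 u).le (Real.exp_pos _).le)
    have h7 : πm * potM w θ s X ≤ ∑ u, π u * (w u * Real.exp (-(θ * (X u - s)))) := by
      unfold potM
      rw [mul_sum]
      apply sum_le_sum
      intro u _
      exact mul_le_mul_of_nonneg_right (hπm u) (mul_nonneg (hw0 u).le (Real.exp_pos _).le)
    have hP0 : 0 ≤ potP w θ s X := sum_nonneg fun u _ => mul_nonneg (hw0 u).le (Real.exp_pos _).le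
    have hM0 : 0 ≤ potM w θ s X := sum_nonneg fun u _ => mul_nonneg (hw0 u).le (Real.exp_pos _).le
    calc _ ≤ Real.exp (-(θ * τ)) * (potP w θ s X + (Real.exp θ - 1) * (πp * potP w θ s X)) +
        Real.exp (θ * τ) * (potM w θ s X - (1 - Real.exp (-θ)) * (πm * potM w θ s X)) := by
          apply add_le_add
          · apply mul_le_mul_of_nonneg_left _ (Real.exp_pos _).le
            have := mul_le_mul_of_nonneg_left h6 e1
            linarith
          · apply mul_le_mul_of_nonneg_left _ (Real.exp_pos _).le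
            have := mul_le_mul_of_nonneg_left h7 e2
            linarith
      _ = (Real.exp (-(θ * τ)) * (1 + (Real.exp θ - 1) * πp)) * potP w θ s X +
          (Real.exp (θ * τ) * (1 - (1 - Real.exp (-θ)) * πm)) * potM w θ s X := by ring
      _ ≤ Real.exp lam * potP w θ s X + Real.exp lam * potM w θ s X :=
          add_le_add (mul_le_mul_of_nonneg_right hl1 hP0) (mul_le_mul_of_nonneg_right hl2 hM0)
      _ = _ := by ring
  calc _ ≤ _ := h1
    _ = _ := h2
    _ ≤ _ := by linarith

/-- The total descent is controlled by the potential. -/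
theorem totDescent_le (hS : Downhill G S) (hπ : ∀ u, 0 ≤ π u) (hπ1 : ∑ u, π u = 1)
    (hw0 : ∀ v, 0 < w v) (hw : ∀ a b, G.Adj a b → Real.exp (-η) * w a ≤ w b)
    (hη : 0 ≤ η) (hηθ : η ≤ θ) {πp πm lam τ : ℝ} (hπp : ∀ u, π u ≤ πp) (hπm : ∀ u, πm ≤ π u)
    (hlam : 0 ≤ lam)
    (hl1 : Real.exp (-(θ * τ)) * (1 + (Real.exp θ - 1) * πp) ≤ Real.exp lam)
    (hl2 : Real.exp (θ * τ) * (1 - (1 - Real.exp (-θ)) * πm) ≤ Real.exp lam)
    (m : ℕ) (s : ℝ) (X : V → ℕ) :
    2 * (θ * (θ - η)) * totDescent S π w m X ≤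
      Real.exp (lam * m) * (potP w θ s X + potM w θ s X) := by
  induction m generalizing s X with
  | zero =>
    simp only [totDescent, mul_zero, Nat.cast_zero, Real.exp_zero, one_mul]
    apply add_nonneg
    · exact sum_nonneg fun u _ => mul_nonneg (hw0 u).le (Real.exp_pos _).le
    · exact sum_nonneg fun u _ => mul_nonneg (hw0 u).le (Real.exp_pos _).le
  | succ m ih =>
    have h1 : 2 * (θ * (θ - η)) * stepOp S π (totDescent S π w m) X ≤
        Real.exp (lam * m) * stepOp S π (fun Y => potP w θ (s + τ) Y + potM w θ (s + τ) Y) X := by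
      rw [← stepOp_smul, ← stepOp_smul]
      exact stepOp_mono hS.nonneg hπ (fun Y => ih (s + τ) Y) X
    have h2 := pot_avg hS hπ hπ1 hw0 hw hη hηθ hπp hπm hl1 hl2 s X
    have h3 : 1 ≤ Real.exp (lam * m) := Real.one_le_exp (by positivity)
    have h4 := mul_le_mul_of_nonneg_left h2 (by linarith : 0 ≤ Real.exp (lam * m))
    have h5 := descent_nonneg hS hπ hw0 X
    have h6 : 0 ≤ 2 * (θ * (θ - η)) * descent S π w X := by
      apply mul_nonneg _ h5
      have : 0 ≤ θ - η := by linarith
      have : 0 ≤ θ := by linarith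
      positivity
    have h7 : Real.exp (lam * (m + 1 : ℕ)) = Real.exp (lam * m) * Real.exp lam := by
      rw [← Real.exp_add]; push_cast; ring_nf
    simp only [totDescent]
    rw [h7, mul_add]
    nlinarith [mul_le_mul_of_nonneg_right h3 h6]

/-- weighted sum of the loads -/
def wsum (w : V → ℝ) (X : V → ℕ) : ℝ := ∑ x, w x * X x

theorem wsum_addBall (w : V → ℝ) (X : V → ℕ) (v : V) :
    wsum w (addBall X v) = wsum w X + w v := by
  unfold wsum
  rw [← add_sum_erase univ _ (mem_univ v), ← add_sum_erase univ (fun x => w x * X x) (mem_univ v)]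
  have h1 : ∀ x ∈ univ.erase v, w x * (addBall X v x : ℝ) = w x * (X x : ℝ) := by
    intro x hx
    rw [mem_erase] at hx
    unfold addBall
    rw [Function.update_of_ne hx.1]
  rw [sum_congr rfl h1]
  unfold addBall
  rw [Function.update_self]
  push_cast
  ring

/-- expectation of `ψ(y + w(U₁) + ... + w(U_m))` for independent `U_i` with law `π` -/
def psiIter (π w : V → ℝ) (ψ : ℝ → ℝ) : ℕ → ℝ → ℝ
  | 0, y => ψ y
  | m + 1, y => ∑ u, π u * psiIter π w ψ m (y + w u)

theorem psiIter_lip (hπ : ∀ u, 0 ≤ π u) (hπ1 : ∑ u, π u = 1) {ψ : ℝ → ℝ} {ℓ : ℝ}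
    (h : ∀ y z, y ≤ z → ψ z ≤ ψ y ∧ ψ y ≤ ψ z + ℓ * (z - y)) (m : ℕ) :
    ∀ y z, y ≤ z → psiIter π w ψ m z ≤ psiIter π w ψ m y ∧
      psiIter π w ψ m y ≤ psiIter π w ψ m z + ℓ * (z - y) := by
  induction m with
  | zero => exact h
  | succ m ih =>
    intro y z hyz
    simp only [psiIter]
    constructor
    · apply sum_le_sum
      intro u _
      exact mul_le_mul_of_nonneg_left (ih _ _ (by linarith)).1 (hπ u)
    · calc ∑ u, π u * psiIter π w ψ m (y + w u)
          ≤ ∑ u, π u * (psiIter π w ψ m (z + w u) + ℓ * (z - y)) := by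
            apply sum_le_sum
            intro u _
            apply mul_le_mul_of_nonneg_left _ (hπ u)
            have := (ih (y + w u) (z + w u) (by linarith)).2
            have e : z + w u - (y + w u) = z - y := by ring
            rwa [e] at this
        _ = ∑ u, π u * psiIter π w ψ m (z + w u) + (∑ u, π u) * (ℓ * (z - y)) := by
            rw [sum_mul, ← sum_add_distrib]
            apply sum_congr rfl
            intro u _
            ring
        _ = _ := by rw [hπ1, one_mul]

theorem stepOp_iter_psi (hS : Downhill G S) (hπ : ∀ u, 0 ≤ π u) (hπ1 : ∑ u, π u = 1)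
    (hw0 : ∀ v, 0 < w v) (hw : ∀ a b, G.Adj a b → Real.exp (-η) * w a ≤ w b)
    (hη : 0 ≤ η) {ψ : ℝ → ℝ} {ℓ : ℝ} (hℓ : 0 ≤ ℓ)
    (h : ∀ y z, y ≤ z → ψ z ≤ ψ y ∧ ψ y ≤ ψ z + ℓ * (z - y)) (m : ℕ) (X : V → ℕ) :
    (stepOp S π)^[m] (fun Y => ψ (wsum w Y)) X ≤
      psiIter π w ψ m (wsum w X) + ℓ * η * totDescent S π w m X := by
  induction m generalizing X with
  | zero => simp [psiIter, totDescent]
  | succ m ih =>
    rw [Function.iterate_succ_apply']
    have hL := psiIter_lip (w := w) hπ hπ1 h m
    have key : ∀ u v, S X u v ≠ 0 →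
        psiIter π w ψ m (wsum w X + w v) ≤
          psiIter π w ψ m (wsum w X + w u) + ℓ * η * (w u * ((X u : ℝ) - X v)) := by
      intro u v huv
      have hwalk := hS.walk X u v huv
      have hD := le_of_walk hwalk
      have hnn : 0 ≤ ℓ * η * (w u * ((X u : ℝ) - X v)) :=
        mul_nonneg (mul_nonneg hℓ hη) (mul_nonneg (hw0 u).le hD)
      rcases le_total (w u) (w v) with huv' | huv'
      · have := (hL (wsum w X + w u) (wsum w X + w v) (by linarith)).1
        linarith
      · have h1 := (hL (wsum w X + w v) (wsum w X + w u) (by linarith)).2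
        have h2 : w u - w v ≤ η * (w u * ((X u : ℝ) - X v)) := by
          obtain ⟨p, hp⟩ := hwalk
          have h3 := weight_walk hw0 hw p
          have h4 : 1 + -(η * p.length) ≤ Real.exp (-η * p.length) := by
            have := Real.add_one_le_exp (-η * p.length)
            linarith
          have h5 : (p.length : ℝ) ≤ (X u : ℝ) - X v := by
            have : (p.length : ℝ) + X v ≤ X u := by exact_mod_cast hp
            linarith
          have h6 := mul_le_mul_of_nonneg_right h4 (hw0 u).le
          have h7 : η * p.length * w u ≤ η * ((X u : ℝ) - X v) * w u :=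
            mul_le_mul_of_nonneg_right (mul_le_mul_of_nonneg_left h5 hη) (hw0 u).le
          nlinarith
        have h8 : wsum w X + w u - (wsum w X + w v) = w u - w v := by ring
        rw [h8] at h1
        have := mul_le_mul_of_nonneg_left h2 hℓ
        nlinarith
    calc stepOp S π ((stepOp S π)^[m] fun Y => ψ (wsum w Y)) X
        ≤ stepOp S π (fun Y => psiIter π w ψ m (wsum w Y) + ℓ * η * totDescent S π w m Y) X :=
          stepOp_mono hS.nonneg hπ ih X
      _ = stepOp S π (fun Y => psiIter π w ψ m (wsum w Y)) X +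
          ℓ * η * stepOp S π (totDescent S π w m) X := by
          rw [stepOp_add, stepOp_smul]
      _ ≤ (psiIter π w ψ (m + 1) (wsum w X) + ℓ * η * descent S π w X) +
          ℓ * η * stepOp S π (totDescent S π w m) X := by
          apply add_le_add_left
          unfold stepOp descent
          simp only [psiIter]
          rw [mul_sum, ← sum_add_distrib]
          apply sum_le_sum
          intro u _
          have h9 : ∑ v, S X u v * psiIter π w ψ m (wsum w (addBall X v)) ≤
              psiIter π w ψ m (wsum w X + w u) +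
                ℓ * η * ∑ v, S X u v * (w u * ((X u : ℝ) - X v)) := by
            calc ∑ v, S X u v * psiIter π w ψ m (wsum w (addBall X v))
                ≤ ∑ v, S X u v * (psiIter π w ψ m (wsum w X + w u) +
                    ℓ * η * (w u * ((X u : ℝ) - X v))) := by
                  apply sum_le_sum
                  intro v _
                  by_cases h0 : S X u v = 0
                  · rw [h0]; simp
                  · rw [wsum_addBall]
                    exact mul_le_mul_of_nonneg_left (key u v h0) (hS.nonneg X u v)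
              _ = (∑ v, S X u v) * psiIter π w ψ m (wsum w X + w u) +
                ℓ * η * ∑ v, S X u v * (w u * ((X u : ℝ) - X v)) := by
                  rw [sum_mul, mul_sum, ← sum_add_distrib]
                  apply sum_congr rfl
                  intro v _
                  ring
              _ = _ := by rw [hS.sum_one, one_mul]
          calc _ ≤ π u * (psiIter π w ψ m (wsum w X + w u) +
                ℓ * η * ∑ v, S X u v * (w u * ((X u : ℝ) - X v))) :=
                mul_le_mul_of_nonneg_left h9 (hπ u)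
            _ = _ := by ring
      _ = _ := by simp only [totDescent]; ring

theorem sum_sq_aux (π w : V → ℝ) (c B Q : ℝ) : ∑ u, π u * (c * ((B + w u) ^ 2 + Q)) =
    c * ((B ^ 2 + Q) * ∑ u, π u + 2 * B * ∑ u, π u * w u + ∑ u, π u * w u ^ 2) := by
  rw [mul_sum (f := fun u => π u), mul_sum (f := fun u => π u * w u), ← sum_add_distrib,
    ← sum_add_distrib, mul_sum]
  apply sum_congr rfl
  intro u _
  ring

/-- Chebyshev's inequality for the sum of independent weights. -/
theorem psiIter_cheb (hπ : ∀ u, 0 ≤ π u) (hπ1 : ∑ u, π u = 1) {ψ : ℝ → ℝ} {c b q : ℝ}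
    (hc : 0 ≤ c) (h : ∀ y, ψ y ≤ c * (y - b) ^ 2) (hq : ∑ u, π u * w u ^ 2 ≤ q) (m : ℕ) (y : ℝ) :
    psiIter π w ψ m y ≤ c * ((y + m * (∑ u, π u * w u) - b) ^ 2 + m * q) := by
  induction m generalizing y with
  | zero => simpa [psiIter] using h y
  | succ m ih =>
    simp only [psiIter]
    obtain ⟨μ, hμ⟩ : ∃ μ, μ = ∑ u, π u * w u := ⟨_, rfl⟩
    rw [← hμ] at ih ⊢
    calc ∑ u, π u * psiIter π w ψ m (y + w u)
        ≤ ∑ u, π u * (c * (((y + m * μ - b) + w u) ^ 2 + m * q)) := by
          apply sum_le_sum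
          intro u _
          apply mul_le_mul_of_nonneg_left _ (hπ u)
          have := ih (y + w u)
          have e : y + w u + m * μ - b = (y + m * μ - b) + w u := by ring
          rwa [e] at this
      _ = c * (((y + m * μ - b) ^ 2 + m * q) * ∑ u, π u + 2 * (y + m * μ - b) * ∑ u, π u * w u +
            ∑ u, π u * w u ^ 2) := sum_sq_aux π w c _ _
      _ ≤ c * ((y + (m + 1 : ℕ) * μ - b) ^ 2 + (m + 1 : ℕ) * q) := by
          apply mul_le_mul_of_nonneg_left _ hc
          rw [hπ1, ← hμ]
          push_cast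
          nlinarith [sq_nonneg μ]

end Pool.Agent.H.MP_d24e49_pr
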