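import Pool.Agent.H.MP_d24e49_pr.Bounds

/-!
Change of measure: a mixture of tilted birth distributions is close to the uniform one.
-/

namespace Pool.Agent.H.MP_d24e49_pr

open Finset

variable {V : Type*} [Fintype V] [DecidableEq V]

/-- expectation of `f` after the balls born at `us 0, us 1, ...` -/
noncomputable def quench (S : (V → ℕ) → V → V → ℝ) (f : (V → ℕ) → ℝ) :
    (m : ℕ) → (Fin m → V) → (V → ℕ) → ℝ
  | 0, _, X => f X
  | m + 1, us, X => ∑ v, S X (us 0) v * quench S f m (Fin.tail us) (addBall X v)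

theorem quench_mem {S : (V → ℕ) → V → V → ℝ} (hS0 : ∀ X u v, 0 ≤ S X u v)
    (hS1 : ∀ X u, ∑ v, S X u v = 1) {f : (V → ℕ) → ℝ} (hf0 : ∀ X, 0 ≤ f X) (hf1 : ∀ X, f X ≤ 1)
    (m : ℕ) (us : Fin m → V) (X : V → ℕ) :
    0 ≤ quench S f m us X ∧ quench S f m us X ≤ 1 := by
  induction m generalizing X with
  | zero => exact ⟨hf0 X, hf1 X⟩
  | succ m ih =>
    simp only [quench]
    constructor
    · exact sum_nonneg fun v _ => mul_nonneg (hS0 _ _ _) (ih _ _).1
    · rw [← hS1 X (us 0)]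
      apply sum_le_sum
      intro v _
      calc _ ≤ S X (us 0) v * 1 := mul_le_mul_of_nonneg_left (ih _ _).2 (hS0 _ _ _)
        _ = _ := mul_one _

theorem stepOp_iter_eq (S : (V → ℕ) → V → V → ℝ) (π : V → ℝ) (f : (V → ℕ) → ℝ) (m : ℕ)
    (X : V → ℕ) :
    (stepOp S π)^[m] f X = ∑ us : Fin m → V, (∏ i, π (us i)) * quench S f m us X := by
  induction m generalizing X with
  | zero => simp [quench]
  | succ m ih =>
    rw [Function.iterate_succ_apply']
    unfold stepOp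
    rw [← Equiv.sum_comp (Fin.consEquiv (fun _ => V)), Fintype.sum_prod_type]
    apply sum_congr rfl
    intro u _
    have h2 : ∑ v, S X u v * ((stepOp S π)^[m] f) (addBall X v) =
        ∑ us : Fin m → V, ∑ v, S X u v * ((∏ i, π (us i)) * quench S f m us (addBall X v)) := by
      rw [sum_comm]
      apply sum_congr rfl
      intro v _
      rw [ih, mul_sum]
    change π u * ∑ v, S X u v * ((stepOp S π)^[m] f) (addBall X v) = _
    rw [h2, mul_sum]
    apply sum_congr rfl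
    intro us _
    have ht : Fin.tail (Fin.consEquiv (fun _ => V) (u, us)) = us := rfl
    simp only [Fin.consEquiv_apply, quench, Fin.prod_univ_succ, Fin.cons_zero, Fin.cons_succ]
    rw [mul_sum, mul_sum]
    apply sum_congr rfl
    intro v _
    rw [ht]
    ring

theorem sum_prod_pow {ι : Type*} [Fintype ι] (g : ι → ℝ) (m : ℕ) :
    ∑ us : Fin m → ι, ∏ i, g (us i) = (∑ x, g x) ^ m := by
  have := Finset.sum_pow' (univ : Finset ι) g m
  simp only [Fintype.piFinset_univ] at this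
  exact this.symm

/-- The mixture over `ξ` of the laws with birth distribution `p ξ` dominates the law with uniform
births, up to the square root of the chi-square distance. -/
theorem change_measure [Nonempty V] {Ξ : Type*} [Fintype Ξ] [Nonempty Ξ]
    {S : (V → ℕ) → V → V → ℝ} (hS0 : ∀ X u v, 0 ≤ S X u v)
    (hS1 : ∀ X u, ∑ v, S X u v = 1) {f : (V → ℕ) → ℝ} (hf0 : ∀ X, 0 ≤ f X) (hf1 : ∀ X, f X ≤ 1)
    (p : Ξ → V → ℝ) (hp0 : ∀ ξ x, 0 ≤ p ξ x) (hp1 : ∀ ξ, ∑ x, p ξ x = 1) (m : ℕ) (X : V → ℕ)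
    {χ : ℝ} (hχ : ((Fintype.card Ξ : ℝ)⁻¹) ^ 2 * ∑ ξ, ∑ ξ',
      ((Fintype.card V : ℝ) * ∑ x, p ξ x * p ξ' x) ^ m - 1 ≤ χ) :
    (stepOp S (fun _ => (Fintype.card V : ℝ)⁻¹))^[m] f X ≤
      (Fintype.card Ξ : ℝ)⁻¹ * ∑ ξ, (stepOp S (p ξ))^[m] f X + Real.sqrt χ := by
  set N : ℝ := (Fintype.card V : ℝ) with hN
  have hN0 : 0 < N := by rw [hN]; exact_mod_cast Fintype.card_pos
  set K : ℝ := (Fintype.card Ξ : ℝ) with hK
  have hK0 : 0 < K := by rw [hK]; exact_mod_cast Fintype.card_pos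
  set g0 : ℝ := (N⁻¹) ^ m with hg0
  have hg0pos : 0 < g0 := by positivity
  obtain ⟨gb, hgb⟩ : ∃ gb : (Fin m → V) → ℝ, ∀ us, gb us = K⁻¹ * ∑ ξ, ∏ i, p ξ (us i) :=
    ⟨_, fun _ => rfl⟩
  have hsum0 : ∑ _us : Fin m → V, g0 = 1 := by
    rw [sum_const, nsmul_eq_mul, card_univ, Fintype.card_fun, Fintype.card_fin, hg0]
    push_cast
    rw [← hN, ← mul_pow, mul_inv_cancel₀ hN0.ne', one_pow]
  have hsumb : ∑ us : Fin m → V, gb us = 1 := by
    simp_rw [hgb]
    rw [← mul_sum, sum_comm]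
    simp_rw [sum_prod_pow, hp1, one_pow]
    rw [sum_const, nsmul_eq_mul, card_univ, ← hK, mul_one, inv_mul_cancel₀ hK0.ne']
  have e1 : (stepOp S (fun _ => N⁻¹))^[m] f X = ∑ us : Fin m → V, g0 * quench S f m us X := by
    rw [stepOp_iter_eq]
    apply sum_congr rfl
    intro us _
    rw [prod_const, card_univ, Fintype.card_fin]
  have e2 : K⁻¹ * ∑ ξ, (stepOp S (p ξ))^[m] f X = ∑ us : Fin m → V, gb us * quench S f m us X := by
    simp_rw [stepOp_iter_eq]
    rw [sum_comm, mul_sum]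
    apply sum_congr rfl
    intro us _
    rw [hgb, mul_assoc, sum_mul]
  rw [e1, e2]
  have hQ := fun us => quench_mem hS0 hS1 hf0 hf1 m us X
  -- Cauchy-Schwarz
  have hCS : (∑ us : Fin m → V, |g0 - gb us|) ^ 2 ≤ χ := by
    have h1 : (∑ us : Fin m → V, |g0 - gb us|) ^ 2 ≤
        (∑ _us : Fin m → V, g0) * ∑ us : Fin m → V, (g0 - gb us) ^ 2 / g0 := by
      apply Finset.sum_sq_le_sum_mul_sum_of_sq_le_mul
      · intro us _; exact hg0pos.le
      · intro us _; positivity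
      · intro us _
        rw [sq_abs, mul_div_cancel₀ _ hg0pos.ne']
    refine h1.trans ?_
    rw [hsum0, one_mul]
    have h2 : ∑ us : Fin m → V, (g0 - gb us) ^ 2 / g0 =
        g0⁻¹ * ∑ us : Fin m → V, gb us ^ 2 - 1 := by
      have h3 : ∀ us, (g0 - gb us) ^ 2 / g0 = g0 - 2 * gb us + g0⁻¹ * gb us ^ 2 := by
        intro us; field_simp; ring
      simp_rw [h3]
      rw [sum_add_distrib, sum_sub_distrib, hsum0, ← mul_sum, ← mul_sum, hsumb]
      ring
    rw [h2]
    refine le_trans (le_of_eq ?_) hχ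
    congr 1
    have h4 : ∀ us : Fin m → V, gb us ^ 2 = (K⁻¹) ^ 2 * ∑ ξ, ∑ ξ', ∏ i, (p ξ (us i) * p ξ' (us i)) := by
      intro us
      rw [hgb, mul_pow, sq (∑ ξ, ∏ i, p ξ (us i)), sum_mul_sum]
      simp_rw [prod_mul_distrib]
    simp_rw [h4]
    rw [← mul_sum]
    rw [mul_left_comm]
    congr 1
    rw [sum_comm]
    simp_rw [sum_comm (s := (univ : Finset (Fin m → V)))]
    rw [mul_sum]
    apply sum_congr rfl
    intro ξ _
    rw [mul_sum]
    apply sum_congr rfl
    intro ξ' _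
    rw [sum_prod_pow (fun x => p ξ x * p ξ' x), hg0, ← inv_pow, inv_inv, ← mul_pow]
  have hle : ∑ us : Fin m → V, |g0 - gb us| ≤ Real.sqrt χ := Real.le_sqrt_of_sq_le hCS
  have hmain : ∑ us : Fin m → V, g0 * quench S f m us X ≤
      ∑ us : Fin m → V, gb us * quench S f m us X + ∑ us : Fin m → V, |g0 - gb us| := by
    rw [← sum_add_distrib]
    apply sum_le_sum
    intro us _
    have h5 : (g0 - gb us) * quench S f m us X ≤ |g0 - gb us| := by
      calc (g0 - gb us) * quench S f m us X ≤ |g0 - gb us| * quench S f m us X :=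
            mul_le_mul_of_nonneg_right (le_abs_self _) (hQ us).1
        _ ≤ |g0 - gb us| * 1 := mul_le_mul_of_nonneg_left (hQ us).2 (abs_nonneg _)
        _ = _ := mul_one _
    linarith
  linarith

end Pool.Agent.H.MP_d24e49_pr
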