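import Pool.Agent.H.MP_d24e49_pr.Defs

/-!
Geometry of the cycle.
-/

namespace Pool.Agent.H.MP_d24e49_pr

open Finset SimpleGraph

variable {k : ℕ}

/-- the distance to `0` on the cycle with `k + 3` vertices -/
def cn (x : Fin (k + 3)) : ℕ := min x.val (k + 3 - x.val)

theorem cn_succ (x : Fin (k + 3)) : cn (x + 1) ≤ cn x + 1 ∧ cn x ≤ cn (x + 1) + 1 := by
  unfold cn
  rw [Fin.val_add_one]
  have hx := x.isLt
  by_cases h : x = Fin.last (k + 2)
  · rw [if_pos h]
    have : x.val = k + 2 := by rw [h]; rfl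
    omega
  · rw [if_neg h]
    omega

theorem cn_adj {a b : Fin (k + 3)} (ξ : Fin (k + 3)) (h : (cycleGraph (k + 3)).Adj a b) :
    cn (b - ξ) ≤ cn (a - ξ) + 1 := by
  rcases cycleGraph_adj.1 h with h | h
  · have e : a - ξ = (b - ξ) + 1 := by rw [← h]; abel
    rw [e]
    exact (cn_succ _).2
  · have e : b - ξ = (a - ξ) + 1 := by rw [← h]; abel
    rw [e]
    exact (cn_succ _).1

theorem cn_zero : cn (0 : Fin (k + 3)) = 0 := by simp [cn]

theorem cn_walk {u v : Fin (k + 3)} (p : (cycleGraph (k + 3)).Walk u v) :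
    cn (v - u) ≤ p.length := by
  have : ∀ {a b : Fin (k + 3)} (p : (cycleGraph (k + 3)).Walk a b) (ξ : Fin (k + 3)),
      cn (b - ξ) ≤ cn (a - ξ) + p.length := by
    intro a b p ξ
    induction p with
    | nil => simp
    | cons h p ih =>
      rw [Walk.length_cons]
      have := cn_adj ξ h
      omega
  have h := this p u
  rw [sub_self, cn_zero] at h
  omega

theorem cycle_connected : (cycleGraph (k + 3)).Connected := cycleGraph_connected

theorem cycle_vt : VertexTransitive (cycleGraph (k + 3)) := by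
  intro u v
  refine ⟨⟨Equiv.addRight (v - u), ?_⟩, ?_⟩
  · intro a b
    simp only [Equiv.coe_addRight]
    rw [cycleGraph_adj, cycleGraph_adj]
    simp
  · change u + (v - u) = v
    abel

theorem cn_dist {u v : Fin (k + 3)} : cn (v - u) ≤ (cycleGraph (k + 3)).dist u v := by
  obtain ⟨p, hp⟩ := cycle_connected.exists_walk_length_eq_dist u v
  rw [← hp]
  exact cn_walk p

theorem ball_le (u : Fin (k + 3)) (r : ℕ) :
    {v : Fin (k + 3) | (cycleGraph (k + 3)).dist u v ≤ r}.ncard ≤ 2 * r + 1 := by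
  classical
  have hsub : {v : Fin (k + 3) | (cycleGraph (k + 3)).dist u v ≤ r} ⊆
      (((range (r + 1)).image (fun j : ℕ => u + (Fin.ofNat (k + 3) j)) ∪
        (range r).image (fun j : ℕ => u - (Fin.ofNat (k + 3) (j + 1))) : Finset (Fin (k + 3))) :
          Set (Fin (k + 3))) := by
    intro v hv
    have h1 : cn (v - u) ≤ r := cn_dist.trans hv
    unfold cn at h1
    rw [mem_coe, mem_union, mem_image, mem_image]
    rcases min_le_iff.1 h1 with h2 | h2
    · left
      refine ⟨(v - u).val, mem_range.2 (by omega), ?_⟩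
      have : Fin.ofNat (k + 3) (v - u).val = v - u := by
        apply Fin.ext
        simp [Fin.ofNat, Nat.mod_eq_of_lt (v - u).isLt]
      rw [this]
      abel
    · right
      have hlt := (v - u).isLt
      refine ⟨k + 3 - (v - u).val - 1, mem_range.2 (by omega), ?_⟩
      have : Fin.ofNat (k + 3) (k + 3 - (v - u).val - 1 + 1) = -(v - u) := by
        apply Fin.ext
        rw [Fin.val_neg']
        simp only [Fin.ofNat]
        congr 1
        omega
      rw [this]
      abel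
  refine (Set.ncard_le_ncard hsub (Finset.finite_toSet _)).trans ?_
  rw [Set.ncard_coe_finset]
  refine (card_union_le _ _).trans ?_
  have h1 := card_image_le (s := range (r + 1)) (f := fun j : ℕ => u + (Fin.ofNat (k + 3) j))
  have h2 := card_image_le (s := range r) (f := fun j : ℕ => u - (Fin.ofNat (k + 3) (j + 1)))
  rw [card_range] at h1 h2
  omega

theorem exists_walk_add (u : Fin (k + 3)) (j : ℕ) :
    ∃ p : (cycleGraph (k + 3)).Walk u (u + Fin.ofNat (k + 3) j), p.length = j := by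
  induction j with
  | zero =>
    have : u + Fin.ofNat (k + 3) 0 = u := by simp [Fin.ofNat]
    rw [this]
    exact ⟨Walk.nil, rfl⟩
  | succ j ih =>
    obtain ⟨p, hp⟩ := ih
    have e : Fin.ofNat (k + 3) (j + 1) = Fin.ofNat (k + 3) j + 1 := by
      apply Fin.ext
      rw [Fin.val_add]
      simp only [Fin.ofNat]
      simp [Nat.add_mod]
    have hadj : (cycleGraph (k + 3)).Adj (u + Fin.ofNat (k + 3) j)
        (u + Fin.ofNat (k + 3) (j + 1)) := by
      rw [cycleGraph_adj, e]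
      right
      abel
    exact ⟨p.concat hadj, by rw [Walk.length_concat, hp]⟩

theorem ball_ge (u : Fin (k + 3)) (r : ℕ) (hr : r < k + 3) :
    r + 1 ≤ {v : Fin (k + 3) | (cycleGraph (k + 3)).dist u v ≤ r}.ncard := by
  classical
  have hsub : (((range (r + 1)).image (fun j : ℕ => u + (Fin.ofNat (k + 3) j)) :
      Finset (Fin (k + 3))) : Set (Fin (k + 3))) ⊆
      {v : Fin (k + 3) | (cycleGraph (k + 3)).dist u v ≤ r} := by
    intro v hv
    rw [mem_coe, mem_image] at hv
    obtain ⟨j, hj, rfl⟩ := hv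
    rw [mem_range] at hj
    obtain ⟨p, hp⟩ := exists_walk_add u j
    have := dist_le p
    simp only [Set.mem_ofPred_eq]
    omega
  have h1 := Set.ncard_le_ncard hsub (Set.toFinite _)
  rw [Set.ncard_coe_finset, card_image_of_injOn, card_range] at h1
  · exact h1
  · intro a ha b hb hab
    rw [mem_coe, mem_range] at ha hb
    have h2 : Fin.ofNat (k + 3) a = Fin.ofNat (k + 3) b := add_left_cancel hab
    have h3 := congrArg Fin.val h2
    simp only [Fin.ofNat] at h3
    rwa [Nat.mod_eq_of_lt (by omega), Nat.mod_eq_of_lt (by omega)] at h3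

theorem R2_spec (k : ℕ) :
    Real.log ((k + 3 : ℕ) : ℝ) ≤
      (R2 (cycleGraph (k + 3)) : ℝ) * (2 * (R2 (cycleGraph (k + 3)) : ℝ) + 1) := by
  have hne : {r : ℕ | ∀ u : Fin (k + 3), Real.log (Fintype.card (Fin (k + 3))) ≤
      r * ({v : Fin (k + 3) | (cycleGraph (k + 3)).dist u v ≤ r}.ncard : ℝ)}.Nonempty := by
    refine ⟨k + 2, fun u => ?_⟩
    have h1 := ball_ge u (k + 2) (by omega)
    have h2 : Real.log (Fintype.card (Fin (k + 3))) ≤ (k + 2 : ℕ) := by
      rw [Fintype.card_fin]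
      have := Real.log_le_sub_one_of_pos (x := ((k + 3 : ℕ) : ℝ)) (by positivity)
      push_cast at this ⊢
      linarith
    refine h2.trans ?_
    have h3 : (1 : ℝ) ≤ ({v : Fin (k + 3) | (cycleGraph (k + 3)).dist u v ≤ k + 2}.ncard : ℝ) := by
      have : 1 ≤ {v : Fin (k + 3) | (cycleGraph (k + 3)).dist u v ≤ k + 2}.ncard := by omega
      exact_mod_cast this
    exact le_mul_of_one_le_right (by positivity) h3
  have h : Real.log (Fintype.card (Fin (k + 3))) ≤ (R2 (cycleGraph (k + 3)) : ℝ) *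
      ({v : Fin (k + 3) | (cycleGraph (k + 3)).dist 0 v ≤ R2 (cycleGraph (k + 3))}.ncard : ℝ) :=
    Nat.sInf_mem hne 0
  rw [Fintype.card_fin] at h
  refine h.trans ?_
  apply mul_le_mul_of_nonneg_left _ (Nat.cast_nonneg _)
  have := ball_le (0 : Fin (k + 3)) (R2 (cycleGraph (k + 3)))
  exact_mod_cast this

theorem R2_le (k r : ℕ) (hr : r < k + 3) (h : Real.log ((k + 3 : ℕ) : ℝ) ≤ (r : ℝ) ^ 2) :
    R2 (cycleGraph (k + 3)) ≤ r := by
  apply Nat.sInf_le
  intro u
  rw [Fintype.card_fin]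
  refine h.trans ?_
  rw [sq]
  apply mul_le_mul_of_nonneg_left _ (Nat.cast_nonneg _)
  have := ball_ge u r hr
  have h2 : r ≤ {v : Fin (k + 3) | (cycleGraph (k + 3)).dist u v ≤ r}.ncard := by omega
  exact_mod_cast h2

/-- `(R₂ - 1)² ≤ log n` -/
theorem R2_sq_le (k : ℕ) :
    ((R2 (cycleGraph (k + 3)) : ℝ) - 1) ^ 2 ≤ Real.log ((k + 3 : ℕ) : ℝ) := by
  set L := Real.log ((k + 3 : ℕ) : ℝ) with hL
  have hL0 : 0 ≤ L := Real.log_nonneg (by exact_mod_cast (by omega : 1 ≤ k + 3))
  have hLk : L ≤ k + 2 := by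
    have := Real.log_le_sub_one_of_pos (x := ((k + 3 : ℕ) : ℝ)) (by positivity)
    push_cast at this
    rw [hL]; push_cast
    linarith
  set r := ⌈Real.sqrt L⌉₊ with hr
  have h1 : Real.sqrt L ≤ r := Nat.le_ceil _
  have h2 : (r : ℝ) < Real.sqrt L + 1 := Nat.ceil_lt_add_one (Real.sqrt_nonneg _)
  have h3 : L ≤ (r : ℝ) ^ 2 := by
    calc L = Real.sqrt L ^ 2 := (Real.sq_sqrt hL0).symm
      _ ≤ (r : ℝ) ^ 2 := pow_le_pow_left₀ (Real.sqrt_nonneg _) h1 2
  have h4 : r < k + 3 := by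
    have h5 : Real.sqrt L ≤ Real.sqrt (k + 2) := Real.sqrt_le_sqrt hLk
    have h6 : Real.sqrt ((k : ℝ) + 2) ≤ k + 2 := by
      rw [Real.sqrt_le_left (by positivity)]
      nlinarith [Nat.cast_nonneg (α := ℝ) k]
    have h7 : (r : ℝ) < ((k + 3 : ℕ) : ℝ) := by push_cast; linarith
    exact_mod_cast h7
  have h5 := R2_le k r h4 h3
  have h6 : (R2 (cycleGraph (k + 3)) : ℝ) ≤ r := by exact_mod_cast h5
  rcases Nat.eq_zero_or_pos (R2 (cycleGraph (k + 3))) with h0 | hpos
  · rw [h0]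
    have hlog : (1 : ℝ) ≤ L := by
      rw [hL, Real.le_log_iff_exp_le (by positivity)]
      have := Real.exp_one_lt_d9
      push_cast
      linarith [Nat.cast_nonneg (α := ℝ) k]
    norm_num
    exact hlog
  · have h7 : (1 : ℝ) ≤ (R2 (cycleGraph (k + 3)) : ℝ) := by exact_mod_cast hpos
    calc ((R2 (cycleGraph (k + 3)) : ℝ) - 1) ^ 2 ≤ (Real.sqrt L) ^ 2 :=
          pow_le_pow_left₀ (by linarith) (by linarith) 2
      _ = L := Real.sq_sqrt hL0

/-- the weights -/
noncomputable def wt (η : ℝ) (ξ x : Fin (k + 3)) : ℝ := Real.exp (-(η * cn (x - ξ)))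

theorem wt_pos (η : ℝ) (ξ x : Fin (k + 3)) : 0 < wt η ξ x := Real.exp_pos _

theorem wt_le_one {η : ℝ} (hη : 0 ≤ η) (ξ x : Fin (k + 3)) : wt η ξ x ≤ 1 := by
  unfold wt
  rw [Real.exp_le_one_iff]
  have : 0 ≤ η * (cn (x - ξ) : ℝ) := by positivity
  linarith

theorem wt_adj {η : ℝ} (hη : 0 ≤ η) (ξ : Fin (k + 3)) (a b : Fin (k + 3))
    (h : (cycleGraph (k + 3)).Adj a b) : Real.exp (-η) * wt η ξ a ≤ wt η ξ b := by
  unfold wt
  rw [← Real.exp_add]
  apply Real.exp_le_exp.2
  have h1 : (cn (b - ξ) : ℝ) ≤ cn (a - ξ) + 1 := by exact_mod_cast cn_adj ξ h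
  nlinarith

/-- the total weight -/
noncomputable def S1 (k : ℕ) (η : ℝ) : ℝ := ∑ x : Fin (k + 3), Real.exp (-(η * cn x))

theorem sum_wt (η : ℝ) (ξ : Fin (k + 3)) : ∑ x, wt η ξ x = S1 k η := by
  unfold wt S1
  exact Equiv.sum_comp (Equiv.subRight ξ) (fun x => Real.exp (-(η * cn x)))

theorem sum_wt' (η : ℝ) (x : Fin (k + 3)) : ∑ ξ, wt η ξ x = S1 k η := by
  unfold wt S1
  exact Equiv.sum_comp (Equiv.subLeft x) (fun x => Real.exp (-(η * cn x)))

theorem sum_wt_sq (η : ℝ) (ξ : Fin (k + 3)) : ∑ x, wt η ξ x ^ 2 = S1 k (2 * η) := by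
  rw [← sum_wt (2 * η) ξ]
  apply sum_congr rfl
  intro x _
  unfold wt
  rw [← Real.exp_nat_mul]
  congr 1
  push_cast
  ring

theorem S1_pos (η : ℝ) : 0 < S1 k η :=
  sum_pos (fun x _ => Real.exp_pos _) ⟨0, mem_univ _⟩

theorem S1_le {η : ℝ} (hη : 0 < η) (hη1 : η ≤ 1) : S1 k η ≤ 4 / η := by
  set q := Real.exp (-η) with hq
  have hq0 : 0 < q := Real.exp_pos _
  have hq1 : q ≤ 1 - η / 2 := by
    have h1 : Real.exp (-η) ≤ 1 + (-η) + (-η) ^ 2 := by
      have := Real.abs_exp_sub_one_sub_id_le (x := -η) (by rw [abs_neg, abs_of_pos hη]; exact hη1)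
      have := (abs_le.1 this).2
      linarith
    have h2 : η / 2 * η ≤ η / 2 * 1 := mul_le_mul_of_nonneg_left hη1 (by linarith)
    -- better bound: e^{-η} ≤ 1/(1+η)
    have h3 : Real.exp (-η) * (1 + η) ≤ 1 := by
      have := Real.add_one_le_exp η
      calc Real.exp (-η) * (1 + η) ≤ Real.exp (-η) * Real.exp η :=
            mul_le_mul_of_nonneg_left (by linarith) (Real.exp_pos _).le
        _ = 1 := by rw [← Real.exp_add]; simp
    rw [hq]
    nlinarith
  have hpow : ∀ j : ℕ, Real.exp (-(η * j)) = q ^ j := by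
    intro j
    rw [hq, ← Real.exp_nat_mul]
    congr 1
    ring
  have hgeom : ∀ M : ℕ, ∑ j ∈ range M, q ^ j ≤ 2 / η := by
    intro M
    have h1 : (∑ j ∈ range M, q ^ j) * (1 - q) = 1 - q ^ M := geom_sum_mul_neg q M
    have h2 : 0 ≤ ∑ j ∈ range M, q ^ j := sum_nonneg fun j _ => by positivity
    rw [le_div_iff₀ hη]
    have h3 : (∑ j ∈ range M, q ^ j) * (η / 2) ≤ (∑ j ∈ range M, q ^ j) * (1 - q) :=
      mul_le_mul_of_nonneg_left (by linarith) h2
    have h4 : 0 < q ^ M := by positivity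
    linarith
  unfold S1
  have h1 : ∀ x : Fin (k + 3), Real.exp (-(η * cn x)) ≤ q ^ x.val + q ^ (k + 2 - x.val) := by
    intro x
    rw [hpow]
    unfold cn
    have hx := x.isLt
    rcases le_total x.val (k + 3 - x.val) with h | h
    · rw [min_eq_left h]
      have : 0 < q ^ (k + 2 - x.val) := by positivity
      linarith
    · rw [min_eq_right h]
      have h5 : q ^ (k + 3 - x.val) ≤ q ^ (k + 2 - x.val) :=
        pow_le_pow_of_le_one hq0.le (by linarith) (by omega)
      have : 0 < q ^ x.val := by positivity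
      linarith
  calc ∑ x : Fin (k + 3), Real.exp (-(η * cn x))
      ≤ ∑ x : Fin (k + 3), (q ^ x.val + q ^ (k + 2 - x.val)) := sum_le_sum fun x _ => h1 x
    _ = ∑ x : Fin (k + 3), q ^ x.val + ∑ x : Fin (k + 3), q ^ (k + 2 - x.val) := sum_add_distrib
    _ = ∑ j ∈ range (k + 3), q ^ j + ∑ j ∈ range (k + 3), q ^ (k + 2 - j) := by
        rw [Finset.sum_range, Finset.sum_range]
    _ = ∑ j ∈ range (k + 3), q ^ j + ∑ j ∈ range (k + 3), q ^ j := by
        congr 1
        exact sum_range_reflect (fun j => q ^ j) (k + 3)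
    _ ≤ 2 / η + 2 / η := add_le_add (hgeom _) (hgeom _)
    _ = 4 / η := by ring

theorem S1_two_ge {η : ℝ} (hη : 0 < η) (hk : 1 ≤ η * (k + 3 : ℕ)) : 1 / (4 * η) ≤ S1 k (2 * η) := by
  set q := Real.exp (-(2 * η)) with hq
  have hq0 : 0 < q := Real.exp_pos _
  have hq1 : q < 1 := by rw [hq, Real.exp_lt_one_iff]; linarith
  have hq2 : 1 - q ≤ 2 * η := by
    have := Real.add_one_le_exp (-(2 * η))
    rw [hq]; linarith
  have h1 : ∑ j ∈ range (k + 3), q ^ j ≤ S1 k (2 * η) := by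
    rw [Finset.sum_range]
    unfold S1
    apply sum_le_sum
    intro x _
    have : q ^ x.val = Real.exp (-(2 * η * x.val)) := by
      rw [hq, ← Real.exp_nat_mul]
      congr 1
      ring
    rw [this]
    apply Real.exp_le_exp.2
    have h2 : (cn x : ℝ) ≤ x.val := by
      unfold cn
      exact_mod_cast min_le_left _ _
    nlinarith
  refine le_trans ?_ h1
  have h3 : (∑ j ∈ range (k + 3), q ^ j) * (1 - q) = 1 - q ^ (k + 3) := geom_sum_mul_neg q _
  have h4 : q ^ (k + 3) ≤ 1 / 2 := by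
    have : q ^ (k + 3) = Real.exp (-(2 * (η * (k + 3 : ℕ)))) := by
      rw [hq, ← Real.exp_nat_mul]
      congr 1
      ring
    rw [this]
    have h5 : Real.exp (-(2 * (η * (k + 3 : ℕ)))) ≤ Real.exp (-1) :=
      Real.exp_le_exp.2 (by linarith)
    have h6 : Real.exp (-1) ≤ 1 / 2 := by
      rw [Real.exp_neg, ← one_div]
      apply one_div_le_one_div_of_le (by norm_num)
      have := Real.add_one_le_exp (1 : ℝ)
      linarith
    linarith
  have h5 : 0 ≤ ∑ j ∈ range (k + 3), q ^ j := sum_nonneg fun j _ => by positivity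
  rw [div_le_iff₀ (by positivity)]
  nlinarith [mul_le_mul_of_nonneg_left hq2 h5]

end Pool.Agent.H.MP_d24e49_pr
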