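import Mathlib

/-!
Definitions: local search allocation on a finite graph.
-/

namespace Pool.Agent.H.MP_d24e49_pr

variable {V : Type*} [Fintype V]

open Classical in
/-- The neighbours to which a ball at `v` may move when the loads are `X`: the neighbours of
minimum load, provided this minimum is strictly smaller than the load of `v`
(the set is empty if no neighbour has strictly smaller load). -/
noncomputable def down (G : SimpleGraph V) (X : V → ℕ) (v : V) : Finset V :=
  Finset.univ.filter fun w => G.Adj v w ∧ X w < X v ∧ ∀ w', G.Adj v w' → X w ≤ X w'

open Classical in
/-- The position of a ball that starts at `v` and makes at most `k` moves: as long as the current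
vertex has a neighbour of strictly smaller load, the ball moves to a uniformly chosen neighbour of
minimum load; otherwise it stops. Since every move lowers the load, `k = X v` moves always
suffice. -/
noncomputable def search (G : SimpleGraph V) (X : V → ℕ) : ℕ → V → PMF V
  | 0, v => PMF.pure v
  | k + 1, v =>
    if h : (down G X v).Nonempty then
      (PMF.uniformOfFinset (down G X v) h).bind (search G X k)
    else PMF.pure v

/-- The law of the vector of loads after `m` balls of the local search allocation: the birthplace
`u` is uniform, the ball is allocated to the vertex `v` found by the local search from `u`. -/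
noncomputable def loads [DecidableEq V] [Nonempty V] (G : SimpleGraph V) : ℕ → PMF (V → ℕ)
  | 0 => PMF.pure fun _ => 0
  | m + 1 => (loads G m).bind fun X =>
      (PMF.uniformOfFintype V).bind fun u =>
        (search G X (X u) u).bind fun v => PMF.pure (Function.update X v (X v + 1))

/-- The maximum load. -/
def maxLoad (X : V → ℕ) : ℕ := Finset.univ.sup X

/-- `G` is vertex-transitive. -/
def VertexTransitive (G : SimpleGraph V) : Prop := ∀ u v : V, ∃ φ : G ≃g G, φ u = v

/-- `R₂(G) = min {r : r |B_u^r| ≥ log n for all u}`, where `B_u^r` is the ball of radius `r`. -/
noncomputable def R2 (G : SimpleGraph V) : ℕ :=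
  sInf {r : ℕ | ∀ u : V, Real.log (Fintype.card V) ≤ r * ({v : V | G.dist u v ≤ r}.ncard : ℝ)}

end Pool.Agent.H.MP_d24e49_pr
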