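import Pool.Agent.H.MP_d24e49_pr.Change

/-!
The law of the loads in terms of the one step operator.
-/

namespace Pool.Agent.H.MP_d24e49_pr

open Finset
open scoped ENNReal

variable {V : Type*} [Fintype V]

theorem search_walk (G : SimpleGraph V) (X : V → ℕ) (k : ℕ) (u v : V)
    (h : search G X k u v ≠ 0) : ∃ p : G.Walk u v, p.length + X v ≤ X u := by
  classical
  induction k generalizing u with
  | zero =>
    simp only [search, PMF.pure_apply, ne_eq, ite_eq_right_iff, Classical.not_imp] at h
    obtain ⟨rfl, _⟩ := h
    exact ⟨SimpleGraph.Walk.nil, by simp⟩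
  | succ k ih =>
    unfold search at h
    by_cases hd : (down G X u).Nonempty
    · rw [dif_pos hd, PMF.bind_apply] at h
      have h' : ∃ w, (PMF.uniformOfFinset (down G X u) hd) w * search G X k w v ≠ 0 := by
        by_contra hcon
        push Not at hcon
        apply h
        rw [tsum_congr hcon, tsum_zero]
      obtain ⟨w, hw⟩ := h'
      have hw1 : (PMF.uniformOfFinset (down G X u) hd) w ≠ 0 := left_ne_zero_of_mul hw
      have hw2 : search G X k w v ≠ 0 := right_ne_zero_of_mul hw
      have hmem : w ∈ down G X u := by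
        by_contra hcon
        exact hw1 (PMF.uniformOfFinset_apply_of_notMem _ hcon)
      unfold down at hmem
      rw [mem_filter] at hmem
      obtain ⟨_, hadj, hlt, _⟩ := hmem
      obtain ⟨p, hp⟩ := ih w hw2
      refine ⟨SimpleGraph.Walk.cons hadj p, ?_⟩
      rw [SimpleGraph.Walk.length_cons]
      omega
    · rw [dif_neg hd] at h
      simp only [PMF.pure_apply, ne_eq, ite_eq_right_iff, Classical.not_imp] at h
      obtain ⟨rfl, _⟩ := h
      exact ⟨SimpleGraph.Walk.nil, by simp⟩

/-- the allocation kernel of the local search -/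
noncomputable def kern (G : SimpleGraph V) (X : V → ℕ) (u v : V) : ℝ :=
  (search G X (X u) u v).toReal

theorem kern_downhill (G : SimpleGraph V) : Downhill G (kern G) where
  nonneg X u v := ENNReal.toReal_nonneg
  sum_one X u := by
    unfold kern
    rw [← ENNReal.toReal_sum (fun v _ => PMF.apply_ne_top _ _)]
    have := PMF.tsum_coe (search G X (X u) u)
    rw [tsum_fintype] at this
    rw [this]
    simp
  walk X u v h := by
    apply search_walk G X (X u) u v
    intro h0
    apply h
    unfold kern
    rw [h0]
    simp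

theorem bind_expect {α β : Type*} (p : PMF α) (K : α → PMF β) (g : β → ℝ≥0∞) :
    ∑' b, (p.bind K) b * g b = ∑' a, p a * ∑' b, K a b * g b := by
  simp_rw [PMF.bind_apply, ← ENNReal.tsum_mul_right, ← ENNReal.tsum_mul_left]
  rw [ENNReal.tsum_comm]
  simp_rw [mul_assoc]

theorem pure_expect {β : Type*} (b : β) (g : β → ℝ≥0∞) :
    ∑' x, (PMF.pure b) x * g x = g b := by
  classical
  rw [tsum_eq_single b]
  · simp
  · intro x hx
    rw [PMF.pure_apply, if_neg hx, zero_mul]

theorem loads_expect [DecidableEq V] [Nonempty V] (G : SimpleGraph V) (m : ℕ)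
    (f : (V → ℕ) → ℝ) (hf : ∀ X, 0 ≤ f X) :
    ∑' X, loads G m X * ENNReal.ofReal (f X) =
      ENNReal.ofReal
        ((stepOp (kern G) (fun _ => (Fintype.card V : ℝ)⁻¹))^[m] f fun _ => 0) := by
  induction m generalizing f with
  | zero =>
    simp only [loads, Function.iterate_zero, id]
    exact pure_expect _ _
  | succ m ih =>
    have hK := kern_downhill G
    have hstep0 : ∀ X, 0 ≤ stepOp (kern G) (fun _ => (Fintype.card V : ℝ)⁻¹) f X := by
      intro X
      unfold stepOp
      exact sum_nonneg fun u _ => mul_nonneg (by positivity)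
        (sum_nonneg fun v _ => mul_nonneg (hK.nonneg _ _ _) (hf _))
    rw [Function.iterate_succ_apply, ← ih _ hstep0]
    have hl : loads G (m + 1) = (loads G m).bind fun X =>
      (PMF.uniformOfFintype V).bind fun u =>
        (search G X (X u) u).bind fun v => PMF.pure (addBall X v) := rfl
    rw [hl, bind_expect]
    apply tsum_congr
    intro X
    congr 1
    rw [bind_expect, tsum_fintype]
    unfold stepOp
    rw [ENNReal.ofReal_sum_of_nonneg (fun u _ => mul_nonneg (by positivity)
        (sum_nonneg fun v _ => mul_nonneg (hK.nonneg _ _ _) (hf _)))]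
    apply sum_congr rfl
    intro u _
    rw [ENNReal.ofReal_mul (by positivity)]
    congr 1
    · rw [PMF.uniformOfFintype_apply, ENNReal.ofReal_inv_of_pos (by
        exact_mod_cast Fintype.card_pos), ENNReal.ofReal_natCast]
    · rw [bind_expect, tsum_fintype,
        ENNReal.ofReal_sum_of_nonneg (fun v _ => mul_nonneg (hK.nonneg _ _ _) (hf _))]
      apply sum_congr rfl
      intro v _
      rw [ENNReal.ofReal_mul (hK.nonneg _ _ _), pure_expect]
      congr 1
      unfold kern
      rw [ENNReal.ofReal_toReal (PMF.apply_ne_top _ _)]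

theorem loads_prob [DecidableEq V] [Nonempty V] (G : SimpleGraph V) (m : ℕ)
    (E : Set (V → ℕ)) [DecidablePred (· ∈ E)] :
    (loads G m).toOuterMeasure E =
      ENNReal.ofReal
        ((stepOp (kern G) (fun _ => (Fintype.card V : ℝ)⁻¹))^[m]
          (fun X => if X ∈ E then 1 else 0) fun _ => 0) := by
  rw [← loads_expect G m _ (fun X => by split_ifs <;> norm_num), PMF.toOuterMeasure_apply]
  apply tsum_congr
  intro X
  by_cases hX : X ∈ E
  · simp [hX]
  · simp [hX]

end Pool.Agent.H.MP_d24e49_pr
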