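import Pool.Agent.H.MP_d24e49_pr.Link
import Pool.Agent.H.MP_d24e49_pr.Cycle

/-!
The quantitative bound on the cycle.
-/

namespace Pool.Agent.H.MP_d24e49_pr

open Finset SimpleGraph

/-- a decreasing ramp -/
noncomputable def ramp (x₂ ℓ y : ℝ) : ℝ := max 0 (min 1 ((x₂ - y) * ℓ))

theorem ramp_lip {x₂ ℓ : ℝ} (hℓ : 0 ≤ ℓ) (y z : ℝ) (h : y ≤ z) :
    ramp x₂ ℓ z ≤ ramp x₂ ℓ y ∧ ramp x₂ ℓ y ≤ ramp x₂ ℓ z + ℓ * (z - y) := by
  have h1 : (x₂ - z) * ℓ ≤ (x₂ - y) * ℓ := mul_le_mul_of_nonneg_right (by linarith) hℓ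
  have h2 : (x₂ - y) * ℓ = (x₂ - z) * ℓ + ℓ * (z - y) := by ring
  have h3 : 0 ≤ ℓ * (z - y) := mul_nonneg hℓ (by linarith)
  unfold ramp
  constructor
  · exact max_le_max le_rfl (min_le_min le_rfl h1)
  · rw [h2]
    set A := (x₂ - z) * ℓ
    set B := ℓ * (z - y)
    rcases le_total 1 A with hA | hA
    · rw [min_eq_left hA, min_eq_left (by linarith)]
      linarith
    · rw [min_eq_right hA]
      apply max_le
      · have := le_max_left 0 A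
        linarith
      · have h4 := min_le_right 1 (A + B)
        have h5 := le_max_right 0 A
        linarith

theorem ramp_le_sq {x₂ ℓ b : ℝ} (hb : x₂ < b) (y : ℝ) (hℓ : 0 ≤ ℓ) :
    ramp x₂ ℓ y ≤ ((b - x₂) ^ 2)⁻¹ * (y - b) ^ 2 := by
  have h0 : 0 < b - x₂ := by linarith
  have h1 : 0 ≤ ((b - x₂) ^ 2)⁻¹ * (y - b) ^ 2 := by positivity
  unfold ramp
  apply max_le h1
  rcases le_total x₂ y with h | h
  · refine (min_le_right _ _).trans (le_trans ?_ h1)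
    exact mul_nonpos_of_nonpos_of_nonneg (by linarith) hℓ
  · refine (min_le_left _ _).trans ?_
    rw [← div_eq_inv_mul, le_div_iff₀ (by positivity), one_mul]
    nlinarith

theorem one_le_ramp {x₁ x₂ ℓ y : ℝ} (hℓ : 0 ≤ ℓ) (h : y ≤ x₁) (h1 : 1 ≤ (x₂ - x₁) * ℓ) :
    1 ≤ ramp x₂ ℓ y := by
  unfold ramp
  apply le_max_of_le_right
  apply le_min le_rfl
  refine h1.trans (mul_le_mul_of_nonneg_right (by linarith) hℓ)

variable {k : ℕ}

/-- the tilted birth distribution -/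
noncomputable def tilt (k : ℕ) (δ η : ℝ) (ξ x : Fin (k + 3)) : ℝ :=
  (1 - δ * S1 k η / (k + 3 : ℕ) + δ * wt η ξ x) / (k + 3 : ℕ)

theorem S1_le_card (k : ℕ) {η : ℝ} (hη : 0 ≤ η) : S1 k η ≤ (k + 3 : ℕ) := by
  unfold S1
  calc ∑ x : Fin (k + 3), Real.exp (-(η * cn x)) ≤ ∑ _x : Fin (k + 3), (1 : ℝ) := by
        apply sum_le_sum
        intro x _
        rw [Real.exp_le_one_iff]
        have : 0 ≤ η * (cn x : ℝ) := by positivity
        linarith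
    _ = (k + 3 : ℕ) := by simp

theorem tilt_sum (δ η : ℝ) (ξ : Fin (k + 3)) : ∑ x, tilt k δ η ξ x = 1 := by
  unfold tilt
  have hN : ((k + 3 : ℕ) : ℝ) ≠ 0 := by positivity
  rw [← sum_div, sum_add_distrib, ← mul_sum, sum_wt, sum_const, card_univ, Fintype.card_fin,
    nsmul_eq_mul]
  field_simp
  ring

theorem tilt_ge {δ η : ℝ} (hδ : 0 ≤ δ) (ξ x : Fin (k + 3)) :
    (1 - δ * S1 k η / (k + 3 : ℕ)) / (k + 3 : ℕ) ≤ tilt k δ η ξ x := by
  unfold tilt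
  apply div_le_div_of_nonneg_right _ (by positivity)
  have := mul_nonneg hδ (wt_pos η ξ x).le
  linarith

theorem beta_le {δ η : ℝ} (hδ : 0 ≤ δ) (hη : 0 ≤ η) : δ * S1 k η / (k + 3 : ℕ) ≤ δ := by
  have hN : (0 : ℝ) < ((k + 3 : ℕ) : ℝ) := by positivity
  rw [div_le_iff₀ hN]
  exact mul_le_mul_of_nonneg_left (S1_le_card k hη) hδ

theorem tilt_nonneg {δ η : ℝ} (hδ : 0 ≤ δ) (hδ1 : δ ≤ 1) (hη : 0 ≤ η) (ξ x : Fin (k + 3)) :
    0 ≤ tilt k δ η ξ x := by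
  refine le_trans ?_ (tilt_ge hδ ξ x)
  apply div_nonneg _ (by positivity)
  have := beta_le (k := k) hδ hη
  linarith

theorem tilt_le {δ η : ℝ} (hδ : 0 ≤ δ) (hη : 0 ≤ η) (ξ x : Fin (k + 3)) :
    tilt k δ η ξ x ≤ (1 + δ) / (k + 3 : ℕ) := by
  unfold tilt
  apply div_le_div_of_nonneg_right _ (by positivity)
  have h1 := mul_le_mul_of_nonneg_left (wt_le_one hη ξ x) hδ
  have h2 : 0 ≤ δ * S1 k η / (k + 3 : ℕ) := by
    have := (S1_pos (k := k) η).le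
    positivity
  linarith

theorem tilt_mean (δ η : ℝ) (ξ : Fin (k + 3)) :
    ∑ x, tilt k δ η ξ x * wt η ξ x =
      ((1 - δ * S1 k η / (k + 3 : ℕ)) * S1 k η + δ * S1 k (2 * η)) / (k + 3 : ℕ) := by
  unfold tilt
  have h : ∀ x, (1 - δ * S1 k η / (k + 3 : ℕ) + δ * wt η ξ x) / (k + 3 : ℕ) * wt η ξ x =
      ((1 - δ * S1 k η / (k + 3 : ℕ)) * wt η ξ x + δ * wt η ξ x ^ 2) / (k + 3 : ℕ) := by
    intro x; ring
  simp_rw [h]
  rw [← sum_div, sum_add_distrib, ← mul_sum, ← mul_sum, sum_wt, sum_wt_sq]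

theorem tilt_corr (δ η : ℝ) (ξ ξ' : Fin (k + 3)) :
    ((k + 3 : ℕ) : ℝ) * ∑ x, tilt k δ η ξ x * tilt k δ η ξ' x =
      1 - (δ * S1 k η / (k + 3 : ℕ)) ^ 2 + δ ^ 2 / (k + 3 : ℕ) * ∑ x, wt η ξ x * wt η ξ' x := by
  unfold tilt
  have hN : ((k + 3 : ℕ) : ℝ) ≠ 0 := by positivity
  set N : ℝ := ((k + 3 : ℕ) : ℝ) with hNdef
  set β : ℝ := δ * S1 k η / N with hβ
  have h : ∀ x, (1 - β + δ * wt η ξ x) / N * ((1 - β + δ * wt η ξ' x) / N) =
      ((1 - β) ^ 2 + (1 - β) * δ * wt η ξ x + (1 - β) * δ * wt η ξ' x +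
        δ ^ 2 * (wt η ξ x * wt η ξ' x)) / N ^ 2 := by
    intro x; field_simp; ring
  simp_rw [h]
  rw [← sum_div, sum_add_distrib, sum_add_distrib, sum_add_distrib, ← mul_sum, ← mul_sum,
    ← mul_sum, sum_wt, sum_wt, sum_const, card_univ, Fintype.card_fin, nsmul_eq_mul, ← hNdef]
  have hS : δ * S1 k η = β * N := by rw [hβ]; field_simp
  have e1 : (1 - β) * δ * S1 k η = (1 - β) * (β * N) := by rw [mul_assoc, hS]
  rw [e1]
  field_simp
  ring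

theorem exp_le_one_add {y Y : ℝ} (hy : 0 ≤ y) (hyY : y ≤ Y) :
    Real.exp y ≤ 1 + y * Real.exp Y := by
  have h1 : Real.exp y - 1 ≤ y * Real.exp y := by
    have h2 : 1 - y ≤ Real.exp (-y) := by
      have := Real.add_one_le_exp (-y)
      linarith
    have h3 := mul_le_mul_of_nonneg_right h2 (Real.exp_pos y).le
    have h4 : Real.exp (-y) * Real.exp y = 1 := by rw [← Real.exp_add]; simp
    rw [h4] at h3
    linarith
  have h5 : y * Real.exp y ≤ y * Real.exp Y :=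
    mul_le_mul_of_nonneg_left (Real.exp_le_exp.2 hyY) hy
  linarith

/-- the chi-square bound -/
theorem chi_bound {δ η : ℝ} (hδ : 0 ≤ δ) (hδ1 : δ ≤ 1) (hη : 0 ≤ η) (m : ℕ) :
    ((Fintype.card (Fin (k + 3)) : ℝ)⁻¹) ^ 2 * ∑ ξ : Fin (k + 3), ∑ ξ' : Fin (k + 3),
      ((Fintype.card (Fin (k + 3)) : ℝ) * ∑ x, tilt k δ η ξ x * tilt k δ η ξ' x) ^ m - 1 ≤
    (m : ℝ) / (k + 3 : ℕ) * δ ^ 2 * S1 k η ^ 2 *
      Real.exp ((m : ℝ) / (k + 3 : ℕ) * δ ^ 2 * S1 k η) / (k + 3 : ℕ) := by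
  rw [Fintype.card_fin]
  set N : ℝ := ((k + 3 : ℕ) : ℝ) with hNdef
  have hN : 0 < N := by positivity
  set T : ℝ := (m : ℝ) / N with hT
  have hT0 : 0 ≤ T := by positivity
  set Y : ℝ := T * δ ^ 2 * S1 k η with hY
  have hpt : ∀ ξ ξ' : Fin (k + 3), (N * ∑ x, tilt k δ η ξ x * tilt k δ η ξ' x) ^ m ≤
      1 + T * δ ^ 2 * Real.exp Y * ∑ x, wt η ξ x * wt η ξ' x := by
    intro ξ ξ'
    set P := ∑ x, wt η ξ x * wt η ξ' x with hP
    have hP0 : 0 ≤ P := sum_nonneg fun x _ => mul_nonneg (wt_pos _ _ _).le (wt_pos _ _ _).le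
    have hP1 : P ≤ S1 k η := by
      rw [← sum_wt η ξ]
      apply sum_le_sum
      intro x _
      exact mul_le_of_le_one_right (wt_pos _ _ _).le (wt_le_one hη _ _)
    have h0 : 0 ≤ N * ∑ x, tilt k δ η ξ x * tilt k δ η ξ' x :=
      mul_nonneg hN.le (sum_nonneg fun x _ =>
        mul_nonneg (tilt_nonneg hδ hδ1 hη _ _) (tilt_nonneg hδ hδ1 hη _ _))
    have h1 : N * ∑ x, tilt k δ η ξ x * tilt k δ η ξ' x ≤ Real.exp (δ ^ 2 / N * P) := by
      rw [hNdef, tilt_corr, ← hNdef, ← hP]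
      have := Real.add_one_le_exp (δ ^ 2 / N * P)
      nlinarith [sq_nonneg (δ * S1 k η / N)]
    calc (N * ∑ x, tilt k δ η ξ x * tilt k δ η ξ' x) ^ m
        ≤ (Real.exp (δ ^ 2 / N * P)) ^ m := pow_le_pow_left₀ h0 h1 m
      _ = Real.exp (T * δ ^ 2 * P) := by
          rw [← Real.exp_nat_mul, hT]
          congr 1
          ring
      _ ≤ 1 + (T * δ ^ 2 * P) * Real.exp Y := by
          apply exp_le_one_add (by positivity)
          rw [hY]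
          exact mul_le_mul_of_nonneg_left hP1 (by positivity)
      _ = _ := by ring
  have hsum : ∑ ξ : Fin (k + 3), ∑ ξ' : Fin (k + 3),
      (N * ∑ x, tilt k δ η ξ x * tilt k δ η ξ' x) ^ m ≤
      N ^ 2 + T * δ ^ 2 * Real.exp Y * (N * S1 k η ^ 2) := by
    calc _ ≤ ∑ ξ : Fin (k + 3), ∑ ξ' : Fin (k + 3),
          (1 + T * δ ^ 2 * Real.exp Y * ∑ x, wt η ξ x * wt η ξ' x) :=
          sum_le_sum fun ξ _ => sum_le_sum fun ξ' _ => hpt ξ ξ'
      _ = N ^ 2 + T * δ ^ 2 * Real.exp Y *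
          ∑ ξ : Fin (k + 3), ∑ ξ' : Fin (k + 3), ∑ x, wt η ξ x * wt η ξ' x := by
          simp_rw [sum_add_distrib, ← mul_sum]
          simp only [sum_const, card_univ, Fintype.card_fin, nsmul_eq_mul, mul_one]
          rw [← hNdef]
          ring
      _ = N ^ 2 + T * δ ^ 2 * Real.exp Y * (N * S1 k η ^ 2) := by
          congr 2
          have e1 : ∑ ξ : Fin (k + 3), ∑ ξ' : Fin (k + 3), ∑ x, wt η ξ x * wt η ξ' x =
              ∑ x : Fin (k + 3), (∑ ξ, wt η ξ x) * (∑ ξ', wt η ξ' x) := by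
            simp_rw [sum_mul_sum]
            rw [sum_comm (s := (univ : Finset (Fin (k + 3))))]
            rw [sum_comm]
            conv_rhs => rw [sum_comm]
            apply sum_congr rfl
            intro ξ _
            rw [sum_comm]
          rw [e1]
          simp_rw [sum_wt']
          rw [sum_const, card_univ, Fintype.card_fin, nsmul_eq_mul, ← hNdef]
          ring
  calc (N⁻¹) ^ 2 * ∑ ξ : Fin (k + 3), ∑ ξ' : Fin (k + 3),
      (N * ∑ x, tilt k δ η ξ x * tilt k δ η ξ' x) ^ m - 1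
      ≤ (N⁻¹) ^ 2 * (N ^ 2 + T * δ ^ 2 * Real.exp Y * (N * S1 k η ^ 2)) - 1 := by
        have := mul_le_mul_of_nonneg_left hsum (by positivity : 0 ≤ (N⁻¹) ^ 2)
        linarith
    _ = T * δ ^ 2 * S1 k η ^ 2 * Real.exp Y / N := by
        field_simp
        ring

end Pool.Agent.H.MP_d24e49_pr
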