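import Pool.Agent.H.MP_d24e49_pr.Defs

/-!
The one-step operator of an allocation process in which balls only travel downhill, and the two
basic estimates: the potential bound for the total descent, and the comparison of a weighted sum
of the loads with the corresponding sum for independent balls.
-/

namespace Pool.Agent.H.MP_d24e49_pr

open Finset

variable {V : Type*} [Fintype V] [DecidableEq V]

/-- add a ball at `v` -/
def addBall (X : V → ℕ) (v : V) : V → ℕ := Function.update X v (X v + 1)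

/-- the one step operator for birth distribution `π` and allocation kernel `S` -/
noncomputable def stepOp (S : (V → ℕ) → V → V → ℝ) (π : V → ℝ) (f : (V → ℕ) → ℝ)
    (X : V → ℕ) : ℝ :=
  ∑ u, π u * ∑ v, S X u v * f (addBall X v)

/-- `S` is a Markov kernel under which balls only travel downhill. -/
structure Downhill (G : SimpleGraph V) (S : (V → ℕ) → V → V → ℝ) : Prop where
  nonneg : ∀ X u v, 0 ≤ S X u v
  sum_one : ∀ X u, ∑ v, S X u v = 1
  walk : ∀ X u v, S X u v ≠ 0 → ∃ p : G.Walk u v, p.length + X v ≤ X u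

section basic
variable {S : (V → ℕ) → V → V → ℝ} {π : V → ℝ}

theorem stepOp_mono (hS : ∀ X u v, 0 ≤ S X u v) (hπ : ∀ u, 0 ≤ π u) {f g : (V → ℕ) → ℝ}
    (h : ∀ X, f X ≤ g X) (X : V → ℕ) : stepOp S π f X ≤ stepOp S π g X := by
  unfold stepOp
  apply sum_le_sum
  intro u _
  apply mul_le_mul_of_nonneg_left _ (hπ u)
  apply sum_le_sum
  intro v _
  exact mul_le_mul_of_nonneg_left (h _) (hS X u v)

theorem stepOp_add (f g : (V → ℕ) → ℝ) (X : V → ℕ) :
    stepOp S π (fun Y => f Y + g Y) X = stepOp S π f X + stepOp S π g X := by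
  unfold stepOp
  simp only [mul_add, sum_add_distrib]

theorem stepOp_smul (c : ℝ) (f : (V → ℕ) → ℝ) (X : V → ℕ) :
    stepOp S π (fun Y => c * f Y) X = c * stepOp S π f X := by
  unfold stepOp
  simp only [mul_sum]
  apply sum_congr rfl
  intro u _
  apply sum_congr rfl
  intro v _
  ring

theorem stepOp_const (hS : ∀ X u, ∑ v, S X u v = 1) (hπ1 : ∑ u, π u = 1) (c : ℝ) (X : V → ℕ) :
    stepOp S π (fun _ => c) X = c := by
  unfold stepOp
  simp only [← sum_mul, hS, one_mul, hπ1]

theorem stepOp_iter_mono (hS : ∀ X u v, 0 ≤ S X u v) (hπ : ∀ u, 0 ≤ π u) {f g : (V → ℕ) → ℝ}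
    (h : ∀ X, f X ≤ g X) (m : ℕ) (X : V → ℕ) :
    (stepOp S π)^[m] f X ≤ (stepOp S π)^[m] g X := by
  induction m generalizing f g with
  | zero => exact h X
  | succ m ih =>
    simp only [Function.iterate_succ, Function.comp]
    exact ih (fun Y => stepOp_mono hS hπ h Y)

end basic

section weights
variable {G : SimpleGraph V} {w : V → ℝ} {η : ℝ}

theorem weight_walk (hw0 : ∀ v, 0 < w v) (hw : ∀ a b, G.Adj a b → Real.exp (-η) * w a ≤ w b)
    {u v : V} (p : G.Walk u v) : Real.exp (-η * p.length) * w u ≤ w v := by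
  induction p with
  | nil => simp
  | @cons a b c h p ih =>
    have h1 := hw a b h
    calc Real.exp (-η * (SimpleGraph.Walk.cons h p).length) * w a
        = Real.exp (-η * p.length) * (Real.exp (-η) * w a) := by
          rw [SimpleGraph.Walk.length_cons, ← mul_assoc, ← Real.exp_add]
          push_cast
          ring_nf
      _ ≤ Real.exp (-η * p.length) * w b :=
          mul_le_mul_of_nonneg_left h1 (Real.exp_pos _).le
      _ ≤ w c := ih

end weights

/-- positive part of the potential -/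
noncomputable def potP (w : V → ℝ) (θ s : ℝ) (X : V → ℕ) : ℝ :=
  ∑ x, w x * Real.exp (θ * (X x - s))

/-- negative part of the potential -/
noncomputable def potM (w : V → ℝ) (θ s : ℝ) (X : V → ℕ) : ℝ :=
  ∑ x, w x * Real.exp (-(θ * (X x - s)))

theorem potP_addBall (w : V → ℝ) (θ s τ : ℝ) (X : V → ℕ) (v : V) :
    potP w θ (s + τ) (addBall X v) =
      Real.exp (-(θ * τ)) * (potP w θ s X + w v * Real.exp (θ * (X v - s)) * (Real.exp θ - 1)) := by
  unfold potP
  rw [← add_sum_erase univ _ (mem_univ v), ← add_sum_erase univ (fun x => w x * Real.exp (θ * (X x - s))) (mem_univ v)]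
  have h1 : ∀ x ∈ univ.erase v, w x * Real.exp (θ * ((addBall X v x : ℕ) - (s + τ))) =
      Real.exp (-(θ * τ)) * (w x * Real.exp (θ * (X x - s))) := by
    intro x hx
    rw [mem_erase] at hx
    unfold addBall
    rw [Function.update_of_ne hx.1, mul_left_comm, ← Real.exp_add]
    ring_nf
  rw [sum_congr rfl h1, ← mul_sum]
  have h2 : w v * Real.exp (θ * ((addBall X v v : ℕ) - (s + τ))) =
      Real.exp (-(θ * τ)) * (w v * Real.exp (θ * (X v - s)) * Real.exp θ) := by
    unfold addBall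
    rw [Function.update_self, mul_assoc, ← Real.exp_add, mul_left_comm, ← Real.exp_add]
    push_cast
    ring_nf
  rw [h2]
  ring

theorem potM_addBall (w : V → ℝ) (θ s τ : ℝ) (X : V → ℕ) (v : V) :
    potM w θ (s + τ) (addBall X v) =
      Real.exp (θ * τ) * (potM w θ s X - w v * Real.exp (-(θ * (X v - s))) * (1 - Real.exp (-θ))) := by
  unfold potM
  rw [← add_sum_erase univ _ (mem_univ v), ← add_sum_erase univ (fun x => w x * Real.exp (-(θ * (X x - s)))) (mem_univ v)]
  have h1 : ∀ x ∈ univ.erase v, w x * Real.exp (-(θ * ((addBall X v x : ℕ) - (s + τ)))) =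
      Real.exp (θ * τ) * (w x * Real.exp (-(θ * (X x - s)))) := by
    intro x hx
    rw [mem_erase] at hx
    unfold addBall
    rw [Function.update_of_ne hx.1, mul_left_comm, ← Real.exp_add]
    ring_nf
  rw [sum_congr rfl h1, ← mul_sum]
  have h2 : w v * Real.exp (-(θ * ((addBall X v v : ℕ) - (s + τ)))) =
      Real.exp (θ * τ) * (w v * Real.exp (-(θ * (X v - s))) * Real.exp (-θ)) := by
    unfold addBall
    rw [Function.update_self, mul_assoc, ← Real.exp_add, mul_left_comm, ← Real.exp_add]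
    push_cast
    ring_nf
  rw [h2]
  ring

theorem sq_le_exp_mul (x : ℝ) (hx : 0 ≤ x) : x ^ 2 ≤ (Real.exp x - 1) * (1 - Real.exp (-x)) := by
  have h1 : x / 2 ≤ Real.sinh (x / 2) := Real.self_le_sinh_iff.2 (by linarith)
  have h2 : (Real.exp x - 1) * (1 - Real.exp (-x)) = (2 * Real.sinh (x / 2)) ^ 2 := by
    rw [Real.sinh_eq]
    have e1 : Real.exp x = Real.exp (x / 2) ^ 2 := by
      rw [← Real.exp_nat_mul]; push_cast; ring_nf
    have e2 : Real.exp (-x) = Real.exp (-(x / 2)) ^ 2 := by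
      rw [← Real.exp_nat_mul]; push_cast; ring_nf
    have e3 : Real.exp (x / 2) * Real.exp (-(x / 2)) = 1 := by
      rw [← Real.exp_add]; simp
    rw [e1, e2]
    nlinarith [e3]
  rw [h2]
  nlinarith

theorem amgm_aux {A B c p : ℝ} (hA : 0 ≤ A) (hB : 0 ≤ B) (hc : 0 ≤ c) (hp : 0 < p)
    (h : c ^ 2 ≤ A * B) : 2 * c ≤ A * p + B * p⁻¹ := by
  have h1 : 0 ≤ A * p + B * p⁻¹ := by positivity
  have h2 : (2 * c) ^ 2 ≤ (A * p + B * p⁻¹) ^ 2 := by
    have h3 : (A * p + B * p⁻¹) ^ 2 - 4 * (A * B) = (A * p - B * p⁻¹) ^ 2 := by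
      field_simp
      ring
    nlinarith [sq_nonneg (A * p - B * p⁻¹)]
  exact le_of_sq_le_sq h2 h1

/-- The gain in the potential when a ball descends by `D`. -/
theorem gain_aux {θ a D p : ℝ} (hθ : 0 ≤ θ) (ha : 0 ≤ a) (hD : 0 ≤ D) (hp : 0 < p) :
    2 * (θ * (a * D)) ≤ (Real.exp θ - 1) * (1 - Real.exp (-(a * D))) * p +
      (1 - Real.exp (-θ)) * (Real.exp (a * D) - 1) * p⁻¹ := by
  have haD : 0 ≤ a * D := mul_nonneg ha hD
  have e1 : 0 ≤ Real.exp θ - 1 := by linarith [Real.one_le_exp hθ]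
  have e2 : 0 ≤ 1 - Real.exp (-θ) := by
    have : Real.exp (-θ) ≤ 1 := Real.exp_le_one_iff.2 (by linarith)
    linarith
  have e3 : 0 ≤ Real.exp (a * D) - 1 := by linarith [Real.one_le_exp haD]
  have e4 : 0 ≤ 1 - Real.exp (-(a * D)) := by
    have : Real.exp (-(a * D)) ≤ 1 := Real.exp_le_one_iff.2 (by linarith)
    linarith
  apply amgm_aux (mul_nonneg e1 e4) (mul_nonneg e2 e3) (mul_nonneg hθ haD) hp
  calc (θ * (a * D)) ^ 2 = θ ^ 2 * (a * D) ^ 2 := by ring
    _ ≤ ((Real.exp θ - 1) * (1 - Real.exp (-θ))) *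
        ((Real.exp (a * D) - 1) * (1 - Real.exp (-(a * D)))) :=
        mul_le_mul (sq_le_exp_mul θ hθ) (sq_le_exp_mul _ haD) (by positivity)
          (mul_nonneg e1 e2)
    _ = _ := by ring

section potential
variable {G : SimpleGraph V} {S : (V → ℕ) → V → V → ℝ} {w : V → ℝ} {η θ : ℝ}

/-- The one step estimate for a ball born at `u` and allocated to `v`. -/
theorem pot_step (hw0 : ∀ v, 0 < w v) (hw : ∀ a b, G.Adj a b → Real.exp (-η) * w a ≤ w b)
    (hη : 0 ≤ η) (hηθ : η ≤ θ) (s τ : ℝ) (X : V → ℕ) {u v : V}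
    (hp : ∃ p : G.Walk u v, p.length + X v ≤ X u) :
    potP w θ (s + τ) (addBall X v) + potM w θ (s + τ) (addBall X v) ≤
      Real.exp (-(θ * τ)) * (potP w θ s X + (Real.exp θ - 1) * (w u * Real.exp (θ * (X u - s)))) +
      Real.exp (θ * τ) * (potM w θ s X - (1 - Real.exp (-θ)) * (w u * Real.exp (-(θ * (X u - s))))) -
      2 * (θ * (θ - η)) * (w u * ((X u : ℝ) - X v)) := by
  obtain ⟨p, hpl⟩ := hp
  have hθ0 : 0 ≤ θ := hη.trans hηθ
  have hpl' : (p.length : ℝ) ≤ (X u : ℝ) - X v := by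
    have : (p.length : ℝ) + X v ≤ X u := by exact_mod_cast hpl
    linarith
  set D : ℝ := (X u : ℝ) - X v with hD
  have hD0 : 0 ≤ D := le_trans (Nat.cast_nonneg _) hpl'
  -- weights
  have hwv1 : w v ≤ Real.exp (η * D) * w u := by
    have h1 := weight_walk hw0 hw p.reverse
    rw [SimpleGraph.Walk.length_reverse] at h1
    have h2 : w v = Real.exp (η * p.length) * (Real.exp (-η * p.length) * w v) := by
      rw [← mul_assoc, ← Real.exp_add]; simp
    rw [h2]
    calc Real.exp (η * p.length) * (Real.exp (-η * p.length) * w v)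
        ≤ Real.exp (η * p.length) * w u := mul_le_mul_of_nonneg_left h1 (Real.exp_pos _).le
      _ ≤ Real.exp (η * D) * w u := by
          apply mul_le_mul_of_nonneg_right _ (hw0 u).le
          exact Real.exp_le_exp.2 (mul_le_mul_of_nonneg_left hpl' hη)
  have hwv2 : Real.exp (-(η * D)) * w u ≤ w v := by
    refine le_trans ?_ (weight_walk hw0 hw p)
    apply mul_le_mul_of_nonneg_right _ (hw0 u).le
    apply Real.exp_le_exp.2
    have := mul_le_mul_of_nonneg_left hpl' hη
    linarith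
  have e1 : 0 ≤ Real.exp θ - 1 := by linarith [Real.one_le_exp hθ0]
  have e2 : 0 ≤ 1 - Real.exp (-θ) := by
    have : Real.exp (-θ) ≤ 1 := Real.exp_le_one_iff.2 (by linarith)
    linarith
  set q := Real.exp (θ * (X u - s)) with hq
  have hq0 : 0 < q := Real.exp_pos _
  have hqinv : Real.exp (-(θ * (X u - s))) = q⁻¹ := by rw [Real.exp_neg]
  have k1 : w v * Real.exp (θ * (X v - s)) ≤ w u * q * Real.exp (-((θ - η) * D)) := by
    have h3 : Real.exp (θ * (X v - s)) = q * Real.exp (-(θ * D)) := by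
      rw [hq, ← Real.exp_add]; congr 1; rw [hD]; ring
    rw [h3]
    calc w v * (q * Real.exp (-(θ * D))) ≤ (Real.exp (η * D) * w u) * (q * Real.exp (-(θ * D))) :=
          mul_le_mul_of_nonneg_right hwv1 (by positivity)
      _ = w u * q * (Real.exp (η * D) * Real.exp (-(θ * D))) := by ring
      _ = w u * q * Real.exp (-((θ - η) * D)) := by
          rw [← Real.exp_add]; congr 2; ring
  have k2 : w u * q⁻¹ * Real.exp ((θ - η) * D) ≤ w v * Real.exp (-(θ * (X v - s))) := by
    have h3 : Real.exp (-(θ * (X v - s))) = q⁻¹ * Real.exp (θ * D) := by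
      rw [← hqinv, ← Real.exp_add]; congr 1; rw [hD]; ring
    rw [h3]
    calc w u * q⁻¹ * Real.exp ((θ - η) * D)
        = (Real.exp (-(η * D)) * w u) * (q⁻¹ * Real.exp (θ * D)) := by
          have : Real.exp ((θ - η) * D) = Real.exp (-(η * D)) * Real.exp (θ * D) := by
            rw [← Real.exp_add]; congr 1; ring
          rw [this]; ring
      _ ≤ w v * (q⁻¹ * Real.exp (θ * D)) := mul_le_mul_of_nonneg_right hwv2 (by positivity)
  rw [potP_addBall, potM_addBall, hqinv]
  have hg := gain_aux (θ := θ) (a := θ - η) (D := D) (p := Real.exp (-(θ * τ)) * q) hθ0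
    (by linarith) hD0 (by positivity)
  have hinv : (Real.exp (-(θ * τ)) * q)⁻¹ = Real.exp (θ * τ) * q⁻¹ := by
    rw [mul_inv, ← Real.exp_neg, neg_neg]
  rw [hinv] at hg
  have hwu := (hw0 u).le
  have hg' := mul_le_mul_of_nonneg_left hg hwu
  have k1' := mul_le_mul_of_nonneg_left (mul_le_mul_of_nonneg_right k1 e1) (Real.exp_pos (-(θ * τ))).le
  have k2' := mul_le_mul_of_nonneg_left (mul_le_mul_of_nonneg_right k2 e2) (Real.exp_pos (θ * τ)).le
  nlinarith [k1', k2', hg']

end potential

end Pool.Agent.H.MP_d24e49_pr
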