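import Pool.Agent.H.MP_d24e49_pr.Main

/-!
The quantitative bound on the cycle, continued.
-/

namespace Pool.Agent.H.MP_d24e49_pr

open Finset SimpleGraph

variable {k : ℕ}

theorem exp_sub_one_le {θ : ℝ} (hθ : 0 ≤ θ) (hθ1 : θ ≤ 1) : Real.exp θ - 1 ≤ θ + θ ^ 2 := by
  have := Real.abs_exp_sub_one_sub_id_le (x := θ) (by rw [abs_of_nonneg hθ]; exact hθ1)
  have := (abs_le.1 this).2
  linarith

theorem le_one_sub_exp {θ : ℝ} (hθ : 0 ≤ θ) (hθ1 : θ ≤ 1) : θ - θ ^ 2 ≤ 1 - Real.exp (-θ) := by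
  have := Real.abs_exp_sub_one_sub_id_le (x := -θ) (by rw [abs_neg, abs_of_nonneg hθ]; exact hθ1)
  have := (abs_le.1 this).2
  nlinarith

theorem hl1_aux {θ δ N : ℝ} (hθ : 0 ≤ θ) (hθ1 : θ ≤ 1) (hδ : 0 ≤ δ) (hδ1 : δ ≤ 1) (hN : 0 < N) :
    Real.exp (-(θ * N⁻¹)) * (1 + (Real.exp θ - 1) * ((1 + δ) / N)) ≤
      Real.exp ((2 * θ ^ 2 + δ * θ) / N) := by
  have h1 := exp_sub_one_le hθ hθ1
  have h2 : 1 + (Real.exp θ - 1) * ((1 + δ) / N) ≤ Real.exp ((θ + θ ^ 2) * ((1 + δ) / N)) := by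
    have h3 := Real.add_one_le_exp ((θ + θ ^ 2) * ((1 + δ) / N))
    have h4 : (Real.exp θ - 1) * ((1 + δ) / N) ≤ (θ + θ ^ 2) * ((1 + δ) / N) :=
      mul_le_mul_of_nonneg_right h1 (by positivity)
    linarith
  calc Real.exp (-(θ * N⁻¹)) * (1 + (Real.exp θ - 1) * ((1 + δ) / N))
      ≤ Real.exp (-(θ * N⁻¹)) * Real.exp ((θ + θ ^ 2) * ((1 + δ) / N)) :=
        mul_le_mul_of_nonneg_left h2 (Real.exp_pos _).le
    _ = Real.exp (-(θ * N⁻¹) + (θ + θ ^ 2) * ((1 + δ) / N)) := (Real.exp_add _ _).symm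
    _ ≤ Real.exp ((2 * θ ^ 2 + δ * θ) / N) := by
        apply Real.exp_le_exp.2
        have e : -(θ * N⁻¹) + (θ + θ ^ 2) * ((1 + δ) / N) = (θ ^ 2 + δ * θ + δ * θ ^ 2) / N := by
          field_simp; ring
        rw [e]
        apply div_le_div_of_nonneg_right _ hN.le
        nlinarith [mul_le_mul_of_nonneg_right hδ1 (sq_nonneg θ)]

theorem hl2_aux {θ δ β N : ℝ} (hθ : 0 ≤ θ) (hθ1 : θ ≤ 1) (hδ : 0 ≤ δ) (hβ : 0 ≤ β)
    (hβδ : β ≤ δ) (hβ1 : β ≤ 1) (hN : 0 < N) :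
    Real.exp (θ * N⁻¹) * (1 - (1 - Real.exp (-θ)) * ((1 - β) / N)) ≤
      Real.exp ((2 * θ ^ 2 + δ * θ) / N) := by
  have h1 := le_one_sub_exp hθ hθ1
  have h2 : 1 - (1 - Real.exp (-θ)) * ((1 - β) / N) ≤ Real.exp (-((θ - θ ^ 2) * ((1 - β) / N))) := by
    have h3 := Real.add_one_le_exp (-((θ - θ ^ 2) * ((1 - β) / N)))
    have h4 : (θ - θ ^ 2) * ((1 - β) / N) ≤ (1 - Real.exp (-θ)) * ((1 - β) / N) :=
      mul_le_mul_of_nonneg_right h1 (div_nonneg (by linarith) hN.le)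
    linarith
  calc Real.exp (θ * N⁻¹) * (1 - (1 - Real.exp (-θ)) * ((1 - β) / N))
      ≤ Real.exp (θ * N⁻¹) * Real.exp (-((θ - θ ^ 2) * ((1 - β) / N))) :=
        mul_le_mul_of_nonneg_left h2 (Real.exp_pos _).le
    _ = Real.exp (θ * N⁻¹ + -((θ - θ ^ 2) * ((1 - β) / N))) := (Real.exp_add _ _).symm
    _ ≤ Real.exp ((2 * θ ^ 2 + δ * θ) / N) := by
        apply Real.exp_le_exp.2
        have e : θ * N⁻¹ + -((θ - θ ^ 2) * ((1 - β) / N)) = (θ ^ 2 + β * (θ - θ ^ 2)) / N := by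
          field_simp; ring
        rw [e]
        apply div_le_div_of_nonneg_right _ hN.le
        have h5 : β * (θ - θ ^ 2) ≤ δ * θ := by
          have h6 : 0 ≤ θ - θ ^ 2 := by nlinarith
          calc β * (θ - θ ^ 2) ≤ δ * (θ - θ ^ 2) := mul_le_mul_of_nonneg_right hβδ h6
            _ ≤ δ * θ := mul_le_mul_of_nonneg_left (by nlinarith [sq_nonneg θ]) hδ
        nlinarith [sq_nonneg θ]

/-- bound for a single planted window -/
theorem window_bound {δ η θ g : ℝ} (hδ : 0 ≤ δ) (hδ1 : δ ≤ 1) (hη : 0 < η) (hηθ : η < θ)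
    (hθ1 : θ ≤ 1) (hg : 0 < g) (m : ℕ) (ξ : Fin (k + 3))
    (hgap : 3 * g * S1 k η ≤ (m : ℝ) / (k + 3 : ℕ) * (δ * S1 k (2 * η)) -
      (m : ℝ) / (k + 3 : ℕ) * (δ * S1 k η ^ 2 / (k + 3 : ℕ)))
    (f : (Fin (k + 3) → ℕ) → ℝ) (hf1 : ∀ X, f X ≤ 1)
    (hf : ∀ X, f X ≠ 0 → ∀ x, (X x : ℝ) ≤ (m : ℝ) / (k + 3 : ℕ) + g) :
    (stepOp (kern (cycleGraph (k + 3))) (tilt k δ η ξ))^[m] f (fun _ => 0) ≤
      2 * ((m : ℝ) / (k + 3 : ℕ)) / (g ^ 2 * S1 k η) +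
      η / (g * (θ * (θ - η))) *
        Real.exp ((2 * θ ^ 2 + δ * θ) * ((m : ℝ) / (k + 3 : ℕ))) := by
  have hK := kern_downhill (cycleGraph (k + 3))
  set N : ℝ := ((k + 3 : ℕ) : ℝ) with hNdef
  have hN : 0 < N := by positivity
  set T : ℝ := (m : ℝ) / N with hT
  have hT0 : 0 ≤ T := by positivity
  have hS := S1_pos (k := k) η
  set s := S1 k η with hs
  have hθ0 : 0 < θ := hη.trans hηθ
  have hp0 := fun x => tilt_nonneg (k := k) hδ hδ1 hη.le ξ x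
  have hp1 := tilt_sum (k := k) δ η ξ
  set x₁ : ℝ := (T + g) * s with hx₁
  set x₂ : ℝ := x₁ + g * s with hx₂
  set ℓ : ℝ := (g * s)⁻¹ with hℓ
  have hgs : 0 < g * s := mul_pos hg hS
  have hℓ0 : 0 ≤ ℓ := by positivity
  -- f ≤ ramp
  have hfr : ∀ X, f X ≤ ramp x₂ ℓ (wsum (wt η ξ) X) := by
    intro X
    by_cases h0 : f X = 0
    · rw [h0]; exact le_max_left _ _
    · refine (hf1 X).trans ?_
      apply one_le_ramp (x₁ := x₁) hℓ0
      · unfold wsum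
        calc ∑ x, wt η ξ x * (X x : ℝ) ≤ ∑ x, wt η ξ x * (T + g) :=
              sum_le_sum fun x _ => mul_le_mul_of_nonneg_left (hf X h0 x) (wt_pos _ _ _).le
          _ = x₁ := by rw [← sum_mul, sum_wt, ← hs, hx₁]; ring
      · rw [hx₂, hℓ]
        have : x₁ + g * s - x₁ = g * s := by ring
        rw [this, mul_inv_cancel₀ hgs.ne']
  have h1 := stepOp_iter_mono (S := kern (cycleGraph (k + 3))) hK.nonneg hp0 hfr m (fun _ => 0)
  have h2 := stepOp_iter_psi hK hp0 hp1 (wt_pos η ξ) (fun a b h => wt_adj hη.le ξ a b h) hη.le hℓ0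
    (ramp_lip (x₂ := x₂) hℓ0) m (fun _ => 0)
  have hw0 : wsum (wt η ξ) (fun _ => 0) = 0 := by simp [wsum]
  rw [hw0] at h2
  -- mean
  set μ := ∑ u, tilt k δ η ξ u * wt η ξ u with hμ
  have hμeq : (m : ℝ) * μ = T * ((1 - δ * s / N) * s + δ * S1 k (2 * η)) := by
    rw [hμ, tilt_mean, hT]
    ring
  have hgap' : x₂ + g * s ≤ m * μ := by
    rw [hμeq, hx₂, hx₁]
    have : T * ((1 - δ * s / N) * s + δ * S1 k (2 * η)) =
        T * s + (T * (δ * S1 k (2 * η)) - T * (δ * s ^ 2 / N)) := by ring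
    rw [this]
    linarith
  have hb : x₂ < m * μ := by linarith
  -- second moment
  have hq : ∑ u, tilt k δ η ξ u * wt η ξ u ^ 2 ≤ 2 * s / N := by
    calc ∑ u, tilt k δ η ξ u * wt η ξ u ^ 2 ≤ ∑ u, 2 / N * wt η ξ u := by
          apply sum_le_sum
          intro u _
          have e1 : wt η ξ u ^ 2 ≤ wt η ξ u := by
            rw [sq]
            exact mul_le_of_le_one_right (wt_pos _ _ _).le (wt_le_one hη.le _ _)
          have e2 : tilt k δ η ξ u ≤ 2 / N := by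
            refine (tilt_le hδ hη.le ξ u).trans ?_
            rw [← hNdef]
            apply div_le_div_of_nonneg_right _ hN.le
            linarith
          calc tilt k δ η ξ u * wt η ξ u ^ 2 ≤ tilt k δ η ξ u * wt η ξ u :=
                mul_le_mul_of_nonneg_left e1 (hp0 u)
            _ ≤ 2 / N * wt η ξ u := mul_le_mul_of_nonneg_right e2 (wt_pos _ _ _).le
      _ = 2 * s / N := by rw [← mul_sum, sum_wt, ← hs]; ring
  have h3 := psiIter_cheb (w := wt η ξ) (ψ := ramp x₂ ℓ) hp0 hp1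
    (by positivity : 0 ≤ ((m * μ - x₂) ^ 2)⁻¹) (fun y => ramp_le_sq hb y hℓ0) hq m 0
  rw [← hμ] at h3
  have h4 : ((m * μ - x₂) ^ 2)⁻¹ * ((0 + m * μ - m * μ) ^ 2 + m * (2 * s / N)) ≤
      2 * T / (g ^ 2 * s) := by
    have e1 : (0 + (m : ℝ) * μ - m * μ) ^ 2 + m * (2 * s / N) = 2 * T * s := by rw [hT]; ring
    rw [e1]
    have e2 : (g * s) ^ 2 ≤ (m * μ - x₂) ^ 2 := pow_le_pow_left₀ hgs.le (by linarith) 2
    calc ((m * μ - x₂) ^ 2)⁻¹ * (2 * T * s) ≤ ((g * s) ^ 2)⁻¹ * (2 * T * s) := by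
          apply mul_le_mul_of_nonneg_right _ (by positivity)
          exact inv_anti₀ (by positivity) e2
      _ = 2 * T / (g ^ 2 * s) := by field_simp
  -- descent
  have hβ0 : 0 ≤ δ * s / N := by positivity
  have hβδ : δ * s / N ≤ δ := beta_le hδ hη.le
  have h5 := totDescent_le (τ := N⁻¹) (lam := (2 * θ ^ 2 + δ * θ) / N) hK hp0 hp1 (wt_pos η ξ)
    (fun a b h => wt_adj hη.le ξ a b h) hη.le hηθ.le
    (tilt_le hδ hη.le ξ) (tilt_ge hδ ξ) (by positivity)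
    (hl1_aux hθ0.le hθ1 hδ hδ1 hN) (hl2_aux hθ0.le hθ1 hδ hβ0 hβδ (by linarith) hN) m 0
    (fun _ => 0)
  have hpot : potP (wt η ξ) θ 0 (fun _ => 0) + potM (wt η ξ) θ 0 (fun _ => 0) = 2 * s := by
    unfold potP potM
    simp only [Nat.cast_zero, sub_zero, mul_zero, Real.exp_zero, neg_zero, mul_one]
    rw [sum_wt, ← hs]
    ring
  rw [hpot] at h5
  have hexp : (2 * θ ^ 2 + δ * θ) / N * m = (2 * θ ^ 2 + δ * θ) * T := by rw [hT]; ring
  rw [hexp] at h5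
  set E := Real.exp ((2 * θ ^ 2 + δ * θ) * T) with hE
  have ha : 0 < θ * (θ - η) := mul_pos hθ0 (by linarith)
  have h6 : totDescent (kern (cycleGraph (k + 3))) (tilt k δ η ξ) (wt η ξ) m (fun _ => 0) ≤
      E * s / (θ * (θ - η)) := by
    rw [le_div_iff₀ ha]
    linarith
  have h7 : ℓ * η * totDescent (kern (cycleGraph (k + 3))) (tilt k δ η ξ) (wt η ξ) m
      (fun _ => 0) ≤ η / (g * (θ * (θ - η))) * E := by
    calc _ ≤ ℓ * η * (E * s / (θ * (θ - η))) :=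
          mul_le_mul_of_nonneg_left h6 (mul_nonneg hℓ0 hη.le)
      _ = η / (g * (θ * (θ - η))) * E := by
          rw [hℓ]
          field_simp
  linarith

/-- The main quantitative bound. -/
theorem main_bound {δ η θ g : ℝ} (hδ : 0 ≤ δ) (hδ1 : δ ≤ 1) (hη : 0 < η) (hηθ : η < θ)
    (hθ1 : θ ≤ 1) (hg : 0 < g) (m : ℕ)
    (hgap : 3 * g * S1 k η ≤ (m : ℝ) / (k + 3 : ℕ) * (δ * S1 k (2 * η)) -
      (m : ℝ) / (k + 3 : ℕ) * (δ * S1 k η ^ 2 / (k + 3 : ℕ))) :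
    ((loads (cycleGraph (k + 3)) m).toOuterMeasure
      {X | (maxLoad X : ℝ) ≤ (m : ℝ) / (k + 3 : ℕ) + g}).toReal ≤
      2 * ((m : ℝ) / (k + 3 : ℕ)) / (g ^ 2 * S1 k η) +
      η / (g * (θ * (θ - η))) *
        Real.exp ((2 * θ ^ 2 + δ * θ) * ((m : ℝ) / (k + 3 : ℕ))) +
      Real.sqrt ((m : ℝ) / (k + 3 : ℕ) * δ ^ 2 * S1 k η ^ 2 *
      Real.exp ((m : ℝ) / (k + 3 : ℕ) * δ ^ 2 * S1 k η) / (k + 3 : ℕ)) := by
  classical
  have hK := kern_downhill (cycleGraph (k + 3))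
  set E : Set (Fin (k + 3) → ℕ) := {X | (maxLoad X : ℝ) ≤ (m : ℝ) / (k + 3 : ℕ) + g} with hE
  set f : (Fin (k + 3) → ℕ) → ℝ := fun X => if X ∈ E then 1 else 0 with hf
  have hf0 : ∀ X, 0 ≤ f X := fun X => by rw [hf]; simp only; split_ifs <;> norm_num
  have hf1 : ∀ X, f X ≤ 1 := fun X => by rw [hf]; simp only; split_ifs <;> norm_num
  rw [loads_prob]
  have h1 := change_measure hK.nonneg hK.sum_one hf0 hf1 (tilt k δ η)
    (fun ξ x => tilt_nonneg hδ hδ1 hη.le ξ x) (tilt_sum δ η) m (fun _ => 0)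
    (chi_bound (k := k) hδ hδ1 hη.le m)
  have h2 : (stepOp (kern (cycleGraph (k + 3)))
      (fun _ => (Fintype.card (Fin (k + 3)) : ℝ)⁻¹))^[m] f (fun _ => 0) ≤
      2 * ((m : ℝ) / (k + 3 : ℕ)) / (g ^ 2 * S1 k η) +
      η / (g * (θ * (θ - η))) *
        Real.exp ((2 * θ ^ 2 + δ * θ) * ((m : ℝ) / (k + 3 : ℕ))) +
      Real.sqrt ((m : ℝ) / (k + 3 : ℕ) * δ ^ 2 * S1 k η ^ 2 *
      Real.exp ((m : ℝ) / (k + 3 : ℕ) * δ ^ 2 * S1 k η) / (k + 3 : ℕ)) := by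
    refine h1.trans (add_le_add_left ?_ _)
    rw [inv_mul_le_iff₀ (by exact_mod_cast Fintype.card_pos)]
    have h3 : ∀ ξ, (stepOp (kern (cycleGraph (k + 3))) (tilt k δ η ξ))^[m] f (fun _ => 0) ≤
      2 * ((m : ℝ) / (k + 3 : ℕ)) / (g ^ 2 * S1 k η) +
      η / (g * (θ * (θ - η))) *
        Real.exp ((2 * θ ^ 2 + δ * θ) * ((m : ℝ) / (k + 3 : ℕ))) := by
      intro ξ
      apply window_bound hδ hδ1 hη hηθ hθ1 hg m ξ hgap f hf1
      intro X hX x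
      have hXE : X ∈ E := by
        by_contra hcon
        apply hX
        rw [hf]; simp only
        rw [if_neg hcon]
      have h4 : X x ≤ maxLoad X := le_sup (f := X) (mem_univ x)
      have h5 : (X x : ℝ) ≤ maxLoad X := by exact_mod_cast h4
      exact h5.trans hXE
    calc ∑ ξ, (stepOp (kern (cycleGraph (k + 3))) (tilt k δ η ξ))^[m] f (fun _ => 0)
        ≤ ∑ _ξ : Fin (k + 3), (2 * ((m : ℝ) / (k + 3 : ℕ)) / (g ^ 2 * S1 k η) +
      η / (g * (θ * (θ - η))) *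
        Real.exp ((2 * θ ^ 2 + δ * θ) * ((m : ℝ) / (k + 3 : ℕ)))) := sum_le_sum fun ξ _ => h3 ξ
      _ = _ := by rw [sum_const, card_univ, nsmul_eq_mul]
  rw [ENNReal.toReal_ofReal]
  · exact h2
  · have : ∀ X, (0 : ℝ) ≤ (stepOp (kern (cycleGraph (k + 3)))
      (fun _ => (Fintype.card (Fin (k + 3)) : ℝ)⁻¹))^[m] f X := by
      intro X
      rw [stepOp_iter_eq]
      apply sum_nonneg
      intro us _
      exact mul_nonneg (prod_nonneg fun i _ => by positivity)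
        (quench_mem hK.nonneg hK.sum_one hf0 hf1 m us X).1
    exact this _

end Pool.Agent.H.MP_d24e49_pr
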